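import Pool.Agent.Lib.SchH.Spec

/-!
# SchH: the statement `S_BigB`
-/

namespace SchH

open Finset Polynomial

/-- from logarithms to the inequality -/
private theorem BigB_fin {P n q m a k : ℕ} (hP : 0 < P) (hn : 0 < n) (ha : 0 < a)
    (h : Real.log P + q * Real.log n + m * (2 * Real.log 2) < k * Real.log a) :
    P * n ^ q * 4 ^ m < a ^ k := by
  have hP' : (0 : ℝ) < P := by exact_mod_cast hP
  have hn' : (0 : ℝ) < n := by exact_mod_cast hn
  have ha' : (0 : ℝ) < a := by exact_mod_cast ha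
  have h4 : Real.log 4 = 2 * Real.log 2 := by
    rw [show (4 : ℝ) = 2 ^ 2 by norm_num, Real.log_pow]
    norm_num
  have h1 : (P : ℝ) * (n : ℝ) ^ q * 4 ^ m < (a : ℝ) ^ k := by
    rw [← Real.log_lt_log_iff (by positivity) (by positivity),
      Real.log_mul (by positivity) (by positivity), Real.log_mul (by positivity) (by positivity),
      Real.log_pow, Real.log_pow, Real.log_pow, h4]
    exact h
  exact_mod_cast h1

private theorem BigB_odd (hF : S_OddFac) (k : ℕ) (hk : 1 ≤ k) :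
    0 < op k.factorial ∧ Real.log (op k.factorial : ℝ) + k * (Real.log 2 + 1) ≤
      Real.log 2 + 1 + 2 * Real.log k + k * Real.log k := by
  have h0 : 0 < op k.factorial := Nat.ordCompl_pos 2 (Nat.factorial_ne_zero k)
  refine ⟨h0, ?_⟩
  have h1 := hF k hk
  have h2 : (0 : ℝ) < (op k.factorial : ℝ) := by exact_mod_cast h0
  have h3 : (0 : ℝ) < k := by exact_mod_cast hk
  have he : 0 < Real.exp 1 := Real.exp_pos 1
  have h4 := Real.log_le_log (by positivity) h1
  have e1 : Real.log (2 * Real.exp 1) = Real.log 2 + 1 := by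
    rw [Real.log_mul (by norm_num) he.ne', Real.log_exp]
  have e2 : Real.log (2 * Real.exp 1 * (k : ℝ) ^ 2 * (k : ℝ) ^ k) =
      Real.log (2 * Real.exp 1) + (2 : ℕ) * Real.log k + k * Real.log k := by
    rw [Real.log_mul (by positivity) (by positivity), Real.log_mul (by positivity) (by positivity),
      Real.log_pow, Real.log_pow]
  rw [Real.log_mul h2.ne' (by positivity), Real.log_pow, e2, e1] at h4
  push_cast at h4
  exact h4

/-- a bound for the logarithm -/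
private theorem BigB_lS {S : ℝ} (hS : 70.7 ≤ S) : Real.log S ≤ 0.0604 * S := by
  have hS0 : 0 < S := by linarith
  have h1 := Real.log_le_sub_one_of_pos (x := S / 64) (by positivity)
  rw [Real.log_div hS0.ne' (by norm_num), show (64 : ℝ) = 2 ^ 6 by norm_num, Real.log_pow] at h1
  have h2 := Real.log_two_lt_d9
  push_cast at h1
  linarith

/-- the tangent at `4` -/
private theorem BigB_tan {t : ℝ} (ht : 0 < t) : 2 * Real.log 2 + 1 - 4 / t ≤ Real.log t := by
  have h1 := Real.one_sub_inv_le_log_of_pos (x := t / 4) (by positivity)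
  rw [Real.log_div ht.ne' (by norm_num), show (4 : ℝ) = 2 ^ 2 by norm_num, Real.log_pow,
    inv_div] at h1
  have h2 : (2 : ℝ) ^ 2 / t = 4 / t := by norm_num
  rw [h2] at h1
  push_cast at h1
  linarith

private theorem BigB_br {t l2 : ℝ} (ht : 2 ≤ t) (ht' : t ≤ 4) (h1 : 0.69314 ≤ l2)
    (h2 : l2 ≤ 0.69315) : 0.23 ≤ 5 / 3 * l2 + 2 - 4 / t - 2 / 3 * t * l2 := by
  have ht0 : 0 < t := by linarith
  have h3 : 4 / t * t = 4 := div_mul_cancel₀ _ ht0.ne'
  have h4 : 0 ≤ (l2 - 0.69314) * t := mul_nonneg (by linarith) ht0.le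
  have h5 : 0 ≤ (0.69315 - l2) * t ^ 2 := mul_nonneg (by linarith) (by positivity)
  have h6 : 0 ≤ (t - 2) * (4 - t) := mul_nonneg (by linarith) (by linarith)
  have h7 : 0 ≤ t * (5 / 3 * l2 + 2 - 4 / t - 2 / 3 * t * l2 - 0.23) := by
    have : t * (5 / 3 * l2 + 2 - 4 / t - 2 / 3 * t * l2 - 0.23) =
        5 / 3 * (l2 * t) + 1.77 * t - 4 / t * t - 2 / 3 * (l2 * t ^ 2) := by ring
    rw [this, h3]
    nlinarith
  have h8 := nonneg_of_mul_nonneg_right h7 ht0
  linarith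

private theorem BigB_real {K A S t q l2 lS lA ln lP m : ℝ} (hS : 70.7 ≤ S) (hK : K = S ^ 2)
    (h1 : 0.69314 ≤ l2) (h2 : l2 ≤ 0.69315) (hlS : lS ≤ 0.0604 * S)
    (hlP : lP + K * (l2 + 1) ≤ l2 + 1 + 2 * (2 * lS) + K * (2 * lS))
    (hq : q ≤ 0.8167 * S + 1) (hln : ln ≤ 3 * l2 + 2 * lS) (hln0 : 0 ≤ ln)
    (hA : A = t * K) (hm : m ≤ (A + 2 * K) / 3) (ht : 2 ≤ t) (ht' : t ≤ 4)
    (hlA : 2 * lS + 2 * l2 + 1 - 4 / t ≤ lA) : lP + q * ln + m * (2 * l2) < K * lA := by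
  have hb := BigB_br ht ht' h1 h2
  have hK0 : 0 < K := by rw [hK]; positivity
  have e1 : q * ln ≤ (0.8167 * S + 1) * (2.08 + 0.1208 * S) := by
    refine mul_le_mul hq (by linarith) hln0 (by linarith)
  have e2 : m * (2 * l2) ≤ (t * K + 2 * K) / 3 * (2 * l2) := by
    rw [hA] at hm
    exact mul_le_mul_of_nonneg_right hm (by linarith)
  have e3 : K * (2 * lS + 2 * l2 + 1 - 4 / t) ≤ K * lA := mul_le_mul_of_nonneg_left hlA hK0.le
  have e4 : K * 0.23 ≤ K * (5 / 3 * l2 + 2 - 4 / t - 2 / 3 * t * l2) :=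
    mul_le_mul_of_nonneg_left hb hK0.le
  have e5 : (0.8167 * S + 1) * (2.08 + 0.1208 * S) + (l2 + 1 + 4 * lS) < K * 0.23 := by
    rw [hK]
    nlinarith
  have e6 : K * (2 * lS + 2 * l2 + 1 - 4 / t) - (K * (2 * lS) - K * (l2 + 1)) -
      (t * K + 2 * K) / 3 * (2 * l2) = K * (5 / 3 * l2 + 2 - 4 / t - 2 / 3 * t * l2) := by ring
  linarith

theorem c_BigB (hF : S_OddFac) (hP : S_PcThird) : S_BigB := by
  intro k a hk ha1 ha2
  obtain ⟨n, hn⟩ : ∃ n, n = a + 2 * k - 2 := ⟨_, rfl⟩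
  rw [← hn]
  have hn6 : n ≤ 6 * k := by omega
  have hn0 : 0 < n := by omega
  have hn3 : n / 3 * 3 ≤ n := Nat.div_mul_le_self n 3
  have hnA : n ≤ a + 2 * k := by omega
  have hq := hP (Nat.sqrt n)
  have hsq : Nat.sqrt n ^ 2 ≤ n := Nat.sqrt_le' n
  obtain ⟨hop, hlP⟩ := BigB_odd hF k (by omega)
  refine BigB_fin hop hn0 (by omega) ?_
  have hk' : (5000 : ℝ) ≤ k := by exact_mod_cast hk
  have ha1' : (2 : ℝ) * k + 3 ≤ a := by exact_mod_cast ha1
  have ha2' : (a : ℝ) ≤ 4 * k := by exact_mod_cast ha2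
  have hn6' : (n : ℝ) ≤ 6 * k := by exact_mod_cast hn6
  have hn0' : (1 : ℝ) ≤ n := by exact_mod_cast hn0
  have hn3' : ((n / 3 : ℕ) : ℝ) * 3 ≤ n := by exact_mod_cast hn3
  have hnA' : (n : ℝ) ≤ a + 2 * k := by exact_mod_cast hnA
  have hq' : 3 * (pc (Nat.sqrt n) : ℝ) ≤ (Nat.sqrt n : ℝ) + 3 := by exact_mod_cast hq
  have hsq' : (Nat.sqrt n : ℝ) ^ 2 ≤ n := by exact_mod_cast hsq
  generalize (pc (Nat.sqrt n) : ℝ) = q at hq' ⊢
  generalize (Nat.sqrt n : ℝ) = s at hq' hsq'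
  generalize ((n / 3 : ℕ) : ℝ) = m at hn3' ⊢
  generalize (op k.factorial : ℝ) = P at hlP ⊢
  generalize (n : ℝ) = N at *
  generalize (k : ℝ) = K at *
  generalize (a : ℝ) = A at *
  clear hF hP hop hsq hq hnA hn3 hn0 hn6 hn ha1 ha2 hk
  have hK0 : 0 < K := by linarith
  have hA0 : 0 < A := by linarith
  obtain ⟨S, hS0, hSK⟩ : ∃ S, 0 ≤ S ∧ K = S ^ 2 :=
    ⟨Real.sqrt K, Real.sqrt_nonneg K, (Real.sq_sqrt hK0.le).symm⟩
  have hS : 70.7 ≤ S := by
    by_contra hcon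
    rw [not_le] at hcon
    nlinarith
  have hs : s ≤ 2.45 * S := by
    by_contra hcon
    rw [not_le] at hcon
    nlinarith
  have hlK : Real.log K = 2 * Real.log S := by
    rw [hSK, Real.log_pow]
    norm_num
  have h1 := Real.log_two_gt_d9
  have h2 := Real.log_two_lt_d9
  have hlN : Real.log N ≤ 3 * Real.log 2 + 2 * Real.log S := by
    rw [← hlK]
    have h3 := Real.log_le_log (by linarith) (show N ≤ 2 ^ 3 * K by linarith)
    rw [Real.log_mul (by norm_num) hK0.ne', Real.log_pow] at h3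
    push_cast at h3
    exact h3
  have hA : A = A / K * K := (div_mul_cancel₀ _ hK0.ne').symm
  refine BigB_real (S := S) (t := A / K) (lS := Real.log S) hS hSK (by linarith) (by linarith)
    (BigB_lS hS) ?_ (by linarith) hlN (Real.log_nonneg hn0') hA
    (by linarith) ?_ ?_ ?_
  · rw [← hlK]
    exact hlP
  · rw [le_div_iff₀ hK0]
    linarith
  · rw [div_le_iff₀ hK0]
    linarith
  · have h3 := BigB_tan (div_pos hA0 hK0)
    rw [Real.log_div hA0.ne' hK0.ne', hlK] at h3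
    linarith

end SchH
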