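import Pool.Agent.Lib.SchH.Spec

/-!
# SchH: the statement `S_BigC`
-/

namespace SchH

open Finset Polynomial

/-- from logarithms to the inequality -/
private theorem BigC_fin {P n q m a k : ℕ} (hP : 0 < P) (hn : 0 < n) (ha : 0 < a)
    (h : Real.log P + q * Real.log n + m * (2 * Real.log 2) < k * Real.log a) :
    P * n ^ q * 4 ^ m < a ^ k := by
  have hP' : (0 : ℝ) < P := by exact_mod_cast hP
  have hn' : (0 : ℝ) < n := by exact_mod_cast hn
  have ha' : (0 : ℝ) < a := by exact_mod_cast ha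
  have h4 : Real.log 4 = 2 * Real.log 2 := by
    rw [show (4 : ℝ) = 2 ^ 2 by norm_num, Real.log_pow]
    norm_num
  have h1 : (P : ℝ) * (n : ℝ) ^ q * 4 ^ m < (a : ℝ) ^ k := by
    rw [← Real.log_lt_log_iff (by positivity) (by positivity),
      Real.log_mul (by positivity) (by positivity), Real.log_mul (by positivity) (by positivity),
      Real.log_pow, Real.log_pow, Real.log_pow, h4]
    exact h
  exact_mod_cast h1

private theorem BigC_odd (hF : S_OddFac) (k : ℕ) (hk : 1 ≤ k) :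
    0 < op k.factorial ∧ Real.log (op k.factorial : ℝ) + k * (Real.log 2 + 1) ≤
      Real.log 2 + 1 + 2 * Real.log k + k * Real.log k := by
  have h0 : 0 < op k.factorial := Nat.ordCompl_pos 2 (Nat.factorial_ne_zero k)
  refine ⟨h0, ?_⟩
  have h1 := hF k hk
  have h2 : (0 : ℝ) < (op k.factorial : ℝ) := by exact_mod_cast h0
  have h3 : (0 : ℝ) < k := by exact_mod_cast hk
  have he : 0 < Real.exp 1 := Real.exp_pos 1
  have h4 := Real.log_le_log (by positivity) h1
  have e1 : Real.log (2 * Real.exp 1) = Real.log 2 + 1 := by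
    rw [Real.log_mul (by norm_num) he.ne', Real.log_exp]
  have e2 : Real.log (2 * Real.exp 1 * (k : ℝ) ^ 2 * (k : ℝ) ^ k) =
      Real.log (2 * Real.exp 1) + (2 : ℕ) * Real.log k + k * Real.log k := by
    rw [Real.log_mul (by positivity) (by positivity), Real.log_mul (by positivity) (by positivity),
      Real.log_pow, Real.log_pow]
  rw [Real.log_mul h2.ne' (by positivity), Real.log_pow, e2, e1] at h4
  push_cast at h4
  exact h4

/-- a bound for the logarithm -/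
private theorem BigC_lS {S : ℝ} (hS : 70.7 ≤ S) : Real.log S ≤ 0.0604 * S := by
  have hS0 : 0 < S := by linarith
  have h1 := Real.log_le_sub_one_of_pos (x := S / 64) (by positivity)
  rw [Real.log_div hS0.ne' (by norm_num), show (64 : ℝ) = 2 ^ 6 by norm_num, Real.log_pow] at h1
  have h2 := Real.log_two_lt_d9
  push_cast at h1
  linarith

/-- the tangent at `2` -/
private theorem BigC_tan {w : ℝ} (hw : 0 < w) :
    2 * Real.log 2 + 2 - 4 / w ≤ 2 * Real.log w := by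
  have h1 := Real.one_sub_inv_le_log_of_pos (x := w / 2) (by positivity)
  rw [Real.log_div hw.ne' (by norm_num), inv_div] at h1
  have h2 : 4 / w = 2 * (2 / w) := by ring
  rw [h2]
  linarith

/-- the tangent at `4 w` -/
private theorem BigC_tan2 {S w : ℝ} (hS : 0 < S) (hw : 0 < w) :
    w * Real.log S ≤ w * (2 * Real.log 2 + Real.log w) - w + S / 4 := by
  have h1 := Real.log_le_sub_one_of_pos (x := S / (4 * w)) (by positivity)
  rw [Real.log_div hS.ne' (by positivity), Real.log_mul (by norm_num) hw.ne',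
    show (4 : ℝ) = 2 ^ 2 by norm_num, Real.log_pow] at h1
  push_cast at h1
  have h2 : w * (S / (2 ^ 2 * w)) = S / 4 := by
    field_simp
    norm_num
  have h3 := mul_le_mul_of_nonneg_left h1 hw.le
  have h4 : w * (S / (2 ^ 2 * w) - 1) = S / 4 - w := by rw [mul_sub, h2, mul_one]
  rw [h4] at h3
  linarith

private theorem BigC_br {w l2 : ℝ} (hw : 2 ≤ w) (hw' : w ≤ 18) (h2 : l2 ≤ 0.69315) :
    0.1 ≤ 3 - l2 - 4 / w - 0.09864 * w := by
  have hw0 : 0 < w := by linarith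
  have h3 : 4 / w * w = 4 := div_mul_cancel₀ _ hw0.ne'
  have h6 : 0 ≤ (w - 2) * (18 - w) := mul_nonneg (by linarith) (by linarith)
  have h7 : 0 ≤ w * (3 - 0.69315 - 4 / w - 0.09864 * w - 0.1) := by
    have : w * (3 - 0.69315 - 4 / w - 0.09864 * w - 0.1) =
        2.20685 * w - 4 / w * w - 0.09864 * w ^ 2 := by ring
    rw [this, h3]
    nlinarith
  have h8 := nonneg_of_mul_nonneg_right h7 hw0
  linarith

private theorem BigC_real {S w q l2 lS lw ln lP : ℝ} (hS : 70.7 ≤ S) (hw : 2 ≤ w)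
    (hwS : 4 * w ≤ S) (h1 : 0.69314 ≤ l2) (h2 : l2 ≤ 0.69315) (hlS : lS ≤ 0.0604 * S)
    (_hlS0 : 0 ≤ lS)
    (hlP : lP + S ^ 2 * (l2 + 1) ≤ l2 + 1 + 2 * (2 * lS) + S ^ 2 * (2 * lS))
    (hq : q ≤ 0.40827 * (w * S) + 1) (hln : ln ≤ 4 * lS) (hln0 : 0 ≤ ln)
    (ht1 : 2 * l2 + 2 - 4 / w ≤ 2 * lw) (ht2 : w * lS ≤ w * (2 * l2 + lw) - w + S / 4)
    (h16 : 16 ≤ w → 4 * l2 ≤ lw) :
    lP + q * ln + (2 * S ^ 2 + 1) * (2 * l2) < S ^ 2 * (2 * lw + 2 * lS) := by
  have hS0 : 0 < S := by linarith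
  have hSS : 0 < S ^ 2 := by positivity
  have hSS' : 4998 ≤ S ^ 2 := by nlinarith
  have e1 : q * ln ≤ (0.40827 * (w * S) + 1) * (4 * lS) := by
    refine mul_le_mul hq hln hln0 ?_
    have : 0 ≤ w * S := mul_nonneg (by linarith) hS0.le
    linarith
  have e2 : (0.40827 * (w * S) + 1) * (4 * lS) = 1.63308 * (S * (w * lS)) + 4 * lS := by ring
  suffices h : 3 * l2 + 1 + 8 * lS + 1.63308 * (S * (w * lS)) < S ^ 2 * (2 * lw + 1 - 3 * l2) by
    have e3 : S ^ 2 * (2 * lw + 2 * lS) - (2 * S ^ 2 + 1) * (2 * l2) =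
        S ^ 2 * (2 * lw + 1 - 3 * l2) - 2 * l2 + S ^ 2 * (2 * lS) - S ^ 2 * (l2 + 1) + 0 := by
      ring
    linarith
  rcases le_total w 18 with h | h
  · have hb := BigC_br hw h h2
    have e4 : S * (w * lS) ≤ 0.0604 * (S ^ 2 * w) := by
      have : w * lS ≤ w * (0.0604 * S) := mul_le_mul_of_nonneg_left hlS (by linarith)
      calc S * (w * lS) ≤ S * (w * (0.0604 * S)) := mul_le_mul_of_nonneg_left this hS0.le
        _ = _ := by ring
    have e5 : S ^ 2 * 0.1 ≤ S ^ 2 * (2 * lw + 1 - 3 * l2 - 0.09864 * w) :=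
      mul_le_mul_of_nonneg_left (by linarith) hSS.le
    have e6 : 0 ≤ S ^ 2 * w := mul_nonneg hSS.le (by linarith)
    have e7 : S ^ 2 * (2 * lw + 1 - 3 * l2 - 0.09864 * w) =
        S ^ 2 * (2 * lw + 1 - 3 * l2) - 0.09864 * (S ^ 2 * w) := by ring
    have e8 : 3 * l2 + 1 + 8 * lS < S ^ 2 * 0.1 := by nlinarith
    linarith
  · have hlw := h16 (by linarith)
    have e4 : w * lS ≤ S / 4 * (2 * l2 + lw) := by
      have : w * (2 * l2 + lw - 1) ≤ S / 4 * (2 * l2 + lw - 1) :=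
        mul_le_mul_of_nonneg_right (by linarith) (by linarith)
      linarith
    have e5 : S * (w * lS) ≤ S * (S / 4 * (2 * l2 + lw)) :=
      mul_le_mul_of_nonneg_left e4 hS0.le
    have e6 : S * (S / 4 * (2 * l2 + lw)) = S ^ 2 * ((2 * l2 + lw) / 4) := by ring
    have e7 : S ^ 2 * 1 ≤ S ^ 2 * (2 * lw + 1 - 3 * l2 - 1.63308 * ((2 * l2 + lw) / 4)) :=
      mul_le_mul_of_nonneg_left (by linarith) hSS.le
    have e8 : S ^ 2 * (2 * lw + 1 - 3 * l2 - 1.63308 * ((2 * l2 + lw) / 4)) =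
        S ^ 2 * (2 * lw + 1 - 3 * l2) - 1.63308 * (S ^ 2 * ((2 * l2 + lw) / 4)) := by ring
    have e9 : 3 * l2 + 1 + 8 * lS < S ^ 2 * 1 := by nlinarith
    linarith

theorem c_BigC (hF : S_OddFac) (hP : S_PcThird) : S_BigC := by
  intro k a hk ha1 ha2
  obtain ⟨n, hn⟩ : ∃ n, n = a + 2 * k - 2 := ⟨_, rfl⟩
  rw [← hn]
  have hn6 : 2 * n ≤ 3 * a := by omega
  have hn0 : 0 < n := by omega
  have hq := hP (Nat.sqrt n)
  have hsq : Nat.sqrt n ^ 2 ≤ n := Nat.sqrt_le' n
  obtain ⟨hop, hlP⟩ := BigC_odd hF k (by omega)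
  refine BigC_fin hop hn0 (by omega) ?_
  have hk' : (5000 : ℝ) ≤ k := by exact_mod_cast hk
  have ha1' : (4 : ℝ) * k < a := by exact_mod_cast ha1
  have ha2' : (16 : ℝ) * a ≤ (k : ℝ) ^ 2 := by exact_mod_cast ha2
  have hn6' : 2 * (n : ℝ) ≤ 3 * a := by exact_mod_cast hn6
  have hn0' : (1 : ℝ) ≤ n := by exact_mod_cast hn0
  have hq' : 3 * (pc (Nat.sqrt n) : ℝ) ≤ (Nat.sqrt n : ℝ) + 3 := by exact_mod_cast hq
  have hsq' : (Nat.sqrt n : ℝ) ^ 2 ≤ n := by exact_mod_cast hsq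
  have hm' : ((2 * k + 1 : ℕ) : ℝ) = 2 * (k : ℝ) + 1 := by push_cast; ring
  rw [hm']
  generalize (pc (Nat.sqrt n) : ℝ) = q at hq' ⊢
  generalize (Nat.sqrt n : ℝ) = s at hq' hsq'
  generalize (op k.factorial : ℝ) = P at hlP ⊢
  clear hm'
  generalize (n : ℝ) = N at *
  generalize (k : ℝ) = K at *
  generalize (a : ℝ) = A at *
  clear hF hP hop hsq hq hn0 hn6 hn ha1 ha2 hk
  have hK0 : 0 < K := by linarith
  have hA0 : 0 < A := by linarith
  obtain ⟨S, hS0, hSK⟩ : ∃ S, 0 ≤ S ∧ K = S ^ 2 :=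
    ⟨Real.sqrt K, Real.sqrt_nonneg K, (Real.sq_sqrt hK0.le).symm⟩
  have hS : 70.7 ≤ S := by
    by_contra hcon
    rw [not_le] at hcon
    nlinarith
  have hSp : 0 < S := by linarith
  obtain ⟨w, hw0, hwA⟩ : ∃ w, 0 < w ∧ A = (w * S) ^ 2 := by
    refine ⟨Real.sqrt A / S, div_pos (Real.sqrt_pos.2 hA0) hSp, ?_⟩
    rw [div_mul_cancel₀ _ hSp.ne', Real.sq_sqrt hA0.le]
  have hwS0 : 0 < w * S := mul_pos hw0 hSp
  have hw2 : 2 ≤ w := by
    by_contra hcon
    rw [not_le] at hcon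
    have h3 : w * S < 2 * S := mul_lt_mul_of_pos_right hcon hSp
    nlinarith
  have hwS : 4 * w ≤ S := by
    by_contra hcon
    rw [not_le] at hcon
    have h3 : S * S < 4 * w * S := mul_lt_mul_of_pos_right hcon hSp
    have h4 : (4 * (w * S)) ^ 2 ≤ (S * S) ^ 2 := by nlinarith
    have h5 : 4 * (w * S) ≤ S * S := le_of_sq_le_sq h4 (by positivity)
    linarith
  have hs : s ≤ 1.2248 * (w * S) := by
    by_contra hcon
    rw [not_le] at hcon
    nlinarith
  have hlK : Real.log K = 2 * Real.log S := by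
    rw [hSK, Real.log_pow]
    norm_num
  have hlA : Real.log A = 2 * Real.log w + 2 * Real.log S := by
    rw [hwA, Real.log_pow, Real.log_mul hw0.ne' hSp.ne']
    push_cast
    ring
  have h1 := Real.log_two_gt_d9
  have h2 := Real.log_two_lt_d9
  have hlN : Real.log N ≤ 4 * Real.log S := by
    have h3 : N ≤ S ^ 4 := by
      have : K ^ 2 = S ^ 4 := by rw [hSK]; ring
      rw [← this]
      nlinarith
    have h4 := Real.log_le_log (by linarith) h3
    rw [Real.log_pow] at h4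
    push_cast at h4
    exact h4
  have h16 : 16 ≤ w → 4 * Real.log 2 ≤ Real.log w := by
    intro h
    have h3 := Real.log_le_log (by norm_num) (show (2 : ℝ) ^ 4 ≤ w by linarith)
    rw [Real.log_pow] at h3
    push_cast at h3
    exact h3
  rw [hlA]
  have hgoal := BigC_real (S := S) (w := w) (q := q) (l2 := Real.log 2) (lS := Real.log S)
    (lw := Real.log w) (ln := Real.log N) (lP := Real.log P) hS hw2 hwS (by linarith)
    (by linarith) (BigC_lS hS) (Real.log_nonneg (by linarith)) (by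
      rw [← hlK, ← hSK]
      exact hlP) (by linarith) hlN (Real.log_nonneg hn0') (BigC_tan hw0) (BigC_tan2 hSp hw0) h16
  rw [← hSK] at hgoal
  exact hgoal

end SchH
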