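import Pool.Agent.Lib.SchH.Spec

/-!
`S_E27`: `PP 1 13` has no monic factor of degree `2`: there is none modulo `29`.
-/

namespace SchH

open Finset Polynomial

private noncomputable def E27_hp {R : Type*} [CommRing R] : List R → Polynomial R
  | [] => 0
  | a :: l => X * E27_hp l + C a

private def E27_hv {R : Type*} [CommRing R] (b c : R) : List R → R × R
  | [] => (0, 0)
  | a :: l => (a - c * (E27_hv b c l).2, (E27_hv b c l).1 - b * (E27_hv b c l).2)

private theorem E27_dvd {R : Type*} [CommRing R] (b c : R) (l : List R) :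
    (X ^ 2 + C b * X + C c : Polynomial R) ∣
      E27_hp l - (C (E27_hv b c l).1 + C (E27_hv b c l).2 * X) := by
  induction l with
  | nil => simp [E27_hp, E27_hv]
  | cons a l ih =>
    obtain ⟨q, hq⟩ := ih
    refine ⟨X * q + C (E27_hv b c l).2, ?_⟩
    have h1 : E27_hp (a :: l) - (C (E27_hv b c (a :: l)).1 + C (E27_hv b c (a :: l)).2 * X) =
        X * (E27_hp l - (C (E27_hv b c l).1 + C (E27_hv b c l).2 * X)) +
          C (E27_hv b c l).2 * (X ^ 2 + C b * X + C c) := by
      simp only [E27_hp, E27_hv, map_sub, map_mul]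
      ring
    rw [h1, hq]
    ring

private theorem E27_coeff {R : Type*} [CommRing R] (l : List R) (i : ℕ) :
    (E27_hp l).coeff i = l.getD i 0 := by
  induction l generalizing i with
  | nil => simp [E27_hp]
  | cons a l ih =>
    cases i with
    | zero => simp [E27_hp]
    | succ i => simp [E27_hp, coeff_X_mul, coeff_C, ih]

private def E27_l : List (ZMod 29) := [12, 6, 16, 22, 10, 1, 17, 24, 16, 17, 11, 15, 26, 1]

private theorem E27_PP : (PP 1 13).map (Int.castRingHom (ZMod 29)) = E27_hp E27_l := by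
  ext i
  rw [E27_coeff, coeff_map]
  have h1 : (PP 1 13).coeff i = if i < 14 then (-1) ^ (13 - i) * (cf 1 13 i : ℤ) else 0 := by
    unfold PP
    rw [finset_sum_coeff]
    simp only [coeff_C_mul, coeff_X_pow, mul_ite, mul_one, mul_zero]
    rw [Finset.sum_ite_eq]
    simp only [mem_range]
  rw [h1]
  by_cases hi : i < 14
  · rw [if_pos hi]
    clear h1
    revert i
    decide +kernel
  · rw [if_neg hi, map_zero, List.getD_eq_default]
    simp only [E27_l, List.length_cons, List.length_nil]
    omega

private theorem E27_key : ∀ b c : ZMod 29,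
    ¬ ((E27_hv b c E27_l).1 = 0 ∧ (E27_hv b c E27_l).2 = 0) := by
  decide +kernel

theorem p_E27 : S_E27 := by
  intro f g hg hg2 h
  have hp : Fact (Nat.Prime 29) := ⟨by norm_num⟩
  have h1 : f.map (Int.castRingHom (ZMod 29)) * g.map (Int.castRingHom (ZMod 29)) =
      E27_hp E27_l := by
    rw [← Polynomial.map_mul, h, E27_PP]
  have h2 : (g.map (Int.castRingHom (ZMod 29))).Monic := hg.map _
  have h3 : (g.map (Int.castRingHom (ZMod 29))).natDegree = 2 := by
    rw [hg.natDegree_map, hg2]
  generalize f.map (Int.castRingHom (ZMod 29)) = F at *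
  generalize g.map (Int.castRingHom (ZMod 29)) = G at *
  have h4 : G = X ^ 2 + C (G.coeff 1) * X + C (G.coeff 0) := by
    conv_lhs => rw [G.as_sum_range_C_mul_X_pow, h3]
    simp only [Finset.sum_range_succ, Finset.sum_range_zero]
    have h5 : G.coeff 2 = 1 := by
      have := h2.coeff_natDegree
      rwa [h3] at this
    rw [h5, map_one]
    ring
  have h6 := E27_dvd (G.coeff 1) (G.coeff 0) E27_l
  rw [← h4, ← h1] at h6
  have h7 : G ∣ C (E27_hv (G.coeff 1) (G.coeff 0) E27_l).1 +
      C (E27_hv (G.coeff 1) (G.coeff 0) E27_l).2 * X :=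
    (dvd_sub_right (Dvd.intro_left F rfl)).mp h6
  have h8 : C (E27_hv (G.coeff 1) (G.coeff 0) E27_l).1 +
      C (E27_hv (G.coeff 1) (G.coeff 0) E27_l).2 * X = 0 := by
    apply eq_zero_of_dvd_of_natDegree_lt h7
    rw [h3]
    refine lt_of_le_of_lt (natDegree_add_le _ _) ?_
    rw [natDegree_C]
    have h9 : (C (E27_hv (G.coeff 1) (G.coeff 0) E27_l).2 * X).natDegree ≤ 1 :=
      (natDegree_C_mul_le _ _).trans natDegree_X_le
    omega
  refine E27_key (G.coeff 1) (G.coeff 0) ⟨?_, ?_⟩
  · have h9 := congrArg (fun P => P.coeff 0) h8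
    simpa using h9
  · have h9 := congrArg (fun P => P.coeff 1) h8
    simpa [coeff_C] using h9

end SchH
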