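import Pool.Agent.Lib.SchH.Spec

/-!
`S_Exp`: the exponent of a prime in a product of consecutive odd numbers (Legendre count).
-/

namespace SchH

open Finset

/-- at most `k / m + 1` of the numbers `a + 2 i`, `i < k`, are divisible by the odd number `m` -/
private theorem Exp_count (a m k : ℕ) (hm : Odd m) :
    ((range k).filter (fun i => m ∣ a + 2 * i)).card ≤ k / m + 1 := by
  rcases ((range k).filter (fun i => m ∣ a + 2 * i)).eq_empty_or_nonempty with h | ⟨j, hj⟩
  · rw [h, card_empty]
    exact Nat.zero_le _
  have hjd := (mem_filter.mp hj).2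
  have hmpos : 0 < m := hm.pos
  have hsub : (range k).filter (fun i => m ∣ a + 2 * i) ⊆
      (range k).filter (fun i => i ≡ j [MOD m]) := by
    intro i hi
    rw [mem_filter] at hi ⊢
    refine ⟨hi.1, ?_⟩
    have h1 : (a + 2 * i) ≡ (a + 2 * j) [MOD m] :=
      ((Nat.modEq_zero_iff_dvd).mpr hi.2).trans ((Nat.modEq_zero_iff_dvd).mpr hjd).symm
    have h2 : 2 * i ≡ 2 * j [MOD m] := Nat.ModEq.add_left_cancel' a h1
    have hc : Nat.gcd m 2 = 1 := (Nat.coprime_two_right.mpr hm)
    exact Nat.ModEq.cancel_left_of_coprime hc h2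
  refine (card_le_card hsub).trans ?_
  have h3 := Nat.count_modEq_card k hmpos j
  rw [Nat.count_eq_card_filter_range] at h3
  rw [h3]
  split_ifs <;> omega

theorem p_Exp : S_Exp := by
  intro p a k hp hp2 ha hk
  have ha0 : 0 < a := ha.pos
  have hodd : Odd p := hp.odd_of_ne_two hp2
  set n := a + 2 * k - 2 with hn
  set E := Nat.log p n with hE
  have hn0 : n ≠ 0 := by omega
  have hlt : n < p ^ (E + 1) := Nat.lt_pow_succ_log_self hp.one_lt n
  -- exponent of od
  have h1 : (od a k).factorization p = ∑ e ∈ Ico 1 (E + 1),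
      ((range k).filter (fun i => p ^ e ∣ a + 2 * i)).card := by
    unfold od
    rw [Nat.factorization_prod (fun i _ => by omega), Finsupp.finset_sum_apply]
    have h2 : ∀ i ∈ range k, (a + 2 * i).factorization p =
        ∑ e ∈ Ico 1 (E + 1), if p ^ e ∣ a + 2 * i then 1 else 0 := by
      intro i hi
      have hi' := mem_range.mp hi
      rw [Nat.factorization_eq_card_pow_dvd_of_lt hp (by omega) (b := E + 1) (by omega),
        card_filter]
    rw [sum_congr rfl h2, sum_comm]
    refine sum_congr rfl ?_
    intro e _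
    rw [card_filter]
  have h3 : (k.factorial).factorization p = ∑ e ∈ Ico 1 (E + 1), k / p ^ e := by
    refine Nat.factorization_factorial hp ?_
    have : Nat.log p k ≤ Nat.log p n := Nat.log_mono_right (by omega)
    omega
  have h4 : (od a k).factorization p ≤ (k.factorial).factorization p + E := by
    rw [h1, h3]
    calc ∑ e ∈ Ico 1 (E + 1), ((range k).filter (fun i => p ^ e ∣ a + 2 * i)).card
        ≤ ∑ e ∈ Ico 1 (E + 1), (k / p ^ e + 1) := by
          refine sum_le_sum ?_
          intro e _
          exact Exp_count a (p ^ e) k (hodd.pow)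
      _ = ∑ e ∈ Ico 1 (E + 1), k / p ^ e + E := by
          rw [sum_add_distrib, sum_const, Nat.card_Ico]
          simp
  calc p ^ ((od a k).factorization p - (k.factorial).factorization p) ≤ p ^ E :=
        Nat.pow_le_pow_right hp.pos (by omega)
    _ ≤ n := Nat.pow_log_le_self p hn0

end SchH
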