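import Pool.Agent.Lib.SchH.Spec

/-!
The finite computation for `143 ≤ k < 5000`.
-/

set_option autoImplicit false

namespace SchH

open Finset

/-- the product of the odd primes below 100 -/
private def finA_P : ℕ := 1152783981972759212376551073665878035

/-- the new bound for `pc` -/
private def finA_c (k c : ℕ) : ℕ :=
  Nat.add c (Bool.rec 0 1 (Nat.beq (Nat.gcd (2 * k + 3) finA_P) 1))

/-- the identity (a constant that stops the recursor reduction of the kernel after every step) -/
private def finA_id (b : Bool) : Bool := b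

/-- the loop: `n` steps from `k`, `O` is the odd part of `(k - 1)!`, `c` is a bound for `pc (2 k + 1)` -/
private noncomputable def finA_chk (n : ℕ) : ℕ → ℕ → ℕ → Bool :=
  Nat.rec (fun _ _ _ => true)
    (fun _ ih k O c => Bool.rec false
      (finA_id (ih (k + 1) (O * (k / Nat.gcd k 8192)) (finA_c k c)))
      (Nat.blt O ((2 * k + 3) ^ (k - c)))) n

private theorem finA_test : finA_chk 4857 143 (op (142).factorial) 60 = true := by
  decide +kernel

private theorem finA_pc : pc 287 ≤ 60 := by
  decide +kernel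

private theorem finA_fac : finA_P ∣ (97).factorial := by
  decide +kernel

private theorem finA_op {n : ℕ} (h1 : 1 ≤ n) (h2 : n < 8192) : op n = n / Nat.gcd n 8192 := by
  have hn : n ≠ 0 := by omega
  have key : 2 ^ n.factorization 2 = Nat.gcd n 8192 := by
    have h8 : (8192 : ℕ) = 2 ^ 13 := by norm_num
    have hv : 2 ^ n.factorization 2 ∣ n := Nat.ordProj_dvd n 2
    have hv13 : n.factorization 2 ≤ 13 := by
      have h3 : 2 ^ n.factorization 2 < 2 ^ 13 := by
        rw [← h8]
        exact lt_of_le_of_lt (Nat.le_of_dvd (by omega) hv) h2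
      exact ((Nat.pow_lt_pow_iff_right (by norm_num)).mp h3).le
    rw [h8]
    apply Nat.dvd_antisymm
    · exact Nat.dvd_gcd hv (pow_dvd_pow 2 hv13)
    · obtain ⟨m, hm, hm'⟩ := (Nat.dvd_prime_pow Nat.prime_two).1 (Nat.gcd_dvd_right n (2 ^ 13))
      rw [hm']
      apply pow_dvd_pow
      rw [← Nat.prime_two.pow_dvd_iff_le_factorization hn, ← hm']
      exact Nat.gcd_dvd_left n (2 ^ 13)
  unfold op
  rw [key]

private theorem finA_opmul (a b : ℕ) : op (a * b) = op a * op b := Nat.ordCompl_mul a b 2

private theorem finA_step {k c : ℕ} (hk : 143 ≤ k) (h : pc (2 * k + 1) ≤ c) :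
    pc (2 * (k + 1) + 1) ≤ finA_c k c := by
  have e1 : pc (2 * (k + 1) + 1) ≤ pc (2 * k + 1) +
      (if (2 * k + 3).Prime then 1 else 0) := by
    unfold pc
    have e2 : 2 * (k + 1) + 1 + 1 = (2 * k + 1 + 1) + 1 + 1 := by ring
    rw [e2, Finset.range_add_one, Finset.filter_insert, Finset.range_add_one, Finset.filter_insert]
    have h3 : ¬ ((2 * k + 1 + 1).Prime ∧ 2 * k + 1 + 1 ≠ 2) := by
      rintro ⟨hp, hne⟩
      rcases hp.eq_two_or_odd with h4 | h4
      · exact hne h4
      · omega
    rw [if_neg h3]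
    by_cases hp : (2 * k + 3).Prime
    · rw [if_pos hp]
      have h5 : (2 * k + 1 + 1 + 1).Prime ∧ 2 * k + 1 + 1 + 1 ≠ 2 := ⟨hp, by omega⟩
      rw [if_pos h5]
      exact Finset.card_insert_le _ _
    · rw [if_neg hp]
      have h5 : ¬ ((2 * k + 1 + 1 + 1).Prime ∧ 2 * k + 1 + 1 + 1 ≠ 2) := fun h => hp h.1
      rw [if_neg h5, add_zero]
  by_cases hp : (2 * k + 3).Prime
  · rw [if_pos hp] at e1
    have h6 : Nat.gcd (2 * k + 3) finA_P = 1 := by
      rcases (Nat.coprime_or_dvd_of_prime hp finA_P) with h7 | h7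
      · exact h7
      · exfalso
        have h8 := (hp.dvd_factorial).mp (h7.trans finA_fac)
        omega
    have h9 : finA_c k c = c + 1 := by
      unfold finA_c
      rw [h6]
      rfl
    omega
  · rw [if_neg hp] at e1
    have h9 : c ≤ finA_c k c := Nat.le_add_right _ _
    omega

private theorem finA_sound : ∀ n k O c : ℕ, finA_chk n k O c = true → 143 ≤ k → k + n ≤ 8192 →
    O = op (k - 1).factorial → pc (2 * k + 1) ≤ c → ∀ j, k ≤ j → j < k + n →
      op (j - 1).factorial < (2 * j + 3) ^ (j - pc (2 * j + 1)) := by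
  intro n
  induction n with
  | zero =>
    intro k O c _ _ _ _ _ j h1 h2
    omega
  | succ n ih =>
    intro k O c h hk hkn hO hc j h1 h2
    have hstep : finA_chk (n + 1) k O c = Bool.rec false
      (finA_chk n (k + 1) (O * (k / Nat.gcd k 8192)) (finA_c k c))
      (Nat.blt O ((2 * k + 3) ^ (k - c))) := rfl
    rw [hstep] at h
    cases hb : Nat.blt O ((2 * k + 3) ^ (k - c)) with
    | false =>
      rw [hb] at h
      exact absurd h Bool.false_ne_true
    | true =>
      rw [hb] at h
      have hb' : O < (2 * k + 3) ^ (k - c) := by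
        rwa [Nat.blt_eq] at hb
      rcases Nat.eq_or_lt_of_le h1 with h3 | h3
      · rw [← h3, ← hO]
        exact lt_of_lt_of_le hb' (Nat.pow_le_pow_right (by omega) (by omega))
      · refine ih (k + 1) _ _ h (by omega) (by omega) ?_ (finA_step hk hc) j h3 (by omega)
        rw [hO, ← finA_op (by omega) (by omega), ← finA_opmul, mul_comm,
          Nat.mul_factorial_pred (by omega)]
        rfl

theorem p_FinA : S_FinA := by
  intro k h1 h2
  exact finA_sound 4857 143 _ 60 finA_test le_rfl (by norm_num) rfl finA_pc k h1 (by omega)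

end SchH
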