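import Pool.Agent.Lib.SchH.Spec

/-!
# SchH/FinB: finite computation for `4 ≤ k ≤ 142`
-/

set_option autoImplicit false

namespace SchH

open Finset

/-- the exponent of two in `n!` for `n < 256` -/
def FinB_v (n : ℕ) : ℕ := n / 2 + n / 4 + n / 8 + n / 16 + n / 32 + n / 64 + n / 128

/-- a test which is passed by all odd primes -/
def FinB_t (n : ℕ) : Bool :=
  n % 2 == 1 && n != 1 && (Nat.gcd n 15015 == 1 || n == 3 || n == 5 || n == 7 || n == 11 || n == 13)

/-- an upper bound for `pc` -/
def FinB_pc : ℕ → ℕ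
  | 0 => 0
  | n + 1 => FinB_pc n + (if FinB_t (n + 1) then 1 else 0)

/-- the exceptional values of `k` and the bounds for `a` -/
def FinB_a (k : ℕ) : ℕ :=
  match k with
  | 6 => 17
  | 15 => 35
  | 23 => 51
  | 30 => 65
  | 36 => 81
  | 53 => 111
  | 54 => 131
  | 55 => 123
  | 56 => 143
  | 57 => 127
  | 58 => 125
  | 99 => 211
  | 100 => 207
  | 120 => 249
  | 141 => 295
  | 142 => 291
  | k => 2 * k + 3

/-- the primes which are used -/
def FinB_pr : List ℕ :=
  [17, 19, 23, 29, 31, 37, 41, 43, 47, 53, 59, 61, 67, 71, 73, 79, 83, 89, 97, 101, 103, 107, 109,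
    113, 127, 131, 137, 139, 149, 151, 157, 163, 167, 173, 179, 181, 191, 193, 197, 199, 211, 223,
    227, 229, 233, 239, 241, 251, 257, 263, 269, 271, 277, 281, 283, 293, 307, 311, 313]

private theorem FinB_prime : ∀ p ∈ FinB_pr, p.Prime := by
  intro p hp
  simp only [FinB_pr, List.mem_cons, List.not_mem_nil, or_false] at hp
  rcases hp with rfl | rfl | rfl | rfl | rfl | rfl | rfl | rfl | rfl | rfl | rfl | rfl | rfl | rfl |
    rfl | rfl | rfl | rfl | rfl | rfl | rfl | rfl | rfl | rfl | rfl | rfl | rfl | rfl | rfl | rfl |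
    rfl | rfl | rfl | rfl | rfl | rfl | rfl | rfl | rfl | rfl | rfl | rfl | rfl | rfl | rfl | rfl |
    rfl | rfl | rfl | rfl | rfl | rfl | rfl | rfl | rfl | rfl | rfl | rfl | rfl <;> norm_num

private theorem FinB_op {n v : ℕ} (h1 : n % 2 ^ v = 0) (h2 : n / 2 ^ v % 2 = 1) :
    op n = n / 2 ^ v := by
  obtain ⟨m, rfl⟩ := Nat.dvd_of_mod_eq_zero h1
  have hp : 0 < 2 ^ v := by positivity
  rw [Nat.mul_div_cancel_left m hp] at h2 ⊢
  have hm : m ≠ 0 := by
    rintro rfl
    simp at h2
  have hf : (2 ^ v * m).factorization 2 = v := by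
    rw [Nat.factorization_mul hp.ne' hm, Finsupp.add_apply,
      Nat.Prime.factorization_pow Nat.prime_two, Finsupp.single_eq_same,
      Nat.factorization_eq_zero_of_not_dvd (by omega), add_zero]
  unfold op
  rw [hf, Nat.mul_div_cancel_left m hp]

private theorem FinB_tp {p : ℕ} (hp : p.Prime) (h2 : p ≠ 2) : FinB_t p = true := by
  have h3 : p % 2 = 1 := hp.eq_two_or_odd.resolve_left h2
  have h4 : p ≠ 1 := hp.one_lt.ne'
  have h5 : Nat.gcd p 15015 = 1 ∨ p = 3 ∨ p = 5 ∨ p = 7 ∨ p = 11 ∨ p = 13 := by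
    rcases Nat.coprime_or_dvd_of_prime hp 15015 with h | h
    · exact Or.inl h
    · right
      have h6 : (15015 : ℕ) = 3 * (5 * (7 * (11 * 13))) := by norm_num
      rw [h6, hp.dvd_mul, hp.dvd_mul, hp.dvd_mul, hp.dvd_mul,
        Nat.prime_dvd_prime_iff_eq hp (by norm_num), Nat.prime_dvd_prime_iff_eq hp (by norm_num),
        Nat.prime_dvd_prime_iff_eq hp (by norm_num), Nat.prime_dvd_prime_iff_eq hp (by norm_num),
        Nat.prime_dvd_prime_iff_eq hp (by norm_num)] at h
      exact h
  unfold FinB_t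
  simp only [Bool.and_eq_true, beq_iff_eq, bne_iff_ne, Bool.or_eq_true, ne_eq]
  refine ⟨⟨h3, h4⟩, ?_⟩
  tauto

private theorem FinB_pcle (n : ℕ) : pc n ≤ FinB_pc n := by
  induction n with
  | zero =>
    have : pc 0 = 0 := by
      unfold pc
      rw [Finset.card_eq_zero, Finset.filter_eq_empty_iff]
      intro p hp
      rw [Finset.mem_range] at hp
      obtain rfl : p = 0 := by omega
      exact fun h => Nat.not_prime_zero h.1
    rw [this]
    exact Nat.zero_le _
  | succ n ih =>
    have h1 : pc (n + 1) = ((insert (n + 1) (range (n + 1))).filter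
        (fun p : ℕ => p.Prime ∧ p ≠ 2)).card := by
      unfold pc
      rw [Finset.range_add_one (n := n + 1)]
    rw [h1, Finset.filter_insert]
    change _ ≤ FinB_pc n + (if FinB_t (n + 1) then 1 else 0)
    by_cases h : (n + 1).Prime ∧ n + 1 ≠ 2
    · rw [if_pos h, if_pos (FinB_tp h.1 h.2)]
      exact (Finset.card_insert_le _ _).trans (Nat.add_le_add_right ih 1)
    · rw [if_neg h]
      exact ih.trans (Nat.le_add_right _ _)

/-- the checked inequality -/
def FinB_c (k : ℕ) : Bool :=
  (k - 1).factorial % 2 ^ FinB_v (k - 1) == 0 &&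
  (k - 1).factorial / 2 ^ FinB_v (k - 1) % 2 == 1 &&
  decide ((k - 1).factorial / 2 ^ FinB_v (k - 1) < FinB_a k ^ (k - FinB_pc (2 * k + 1)))

/-- the checked primes -/
def FinB_d (k : ℕ) : Bool :=
  (List.range (FinB_a k)).all fun a =>
    a % 2 == 0 || decide (a < 2 * k + 3) ||
      FinB_pr.any fun p => decide (a ≤ p) && decide (p < a + 2 * k)

private theorem FinB_check : ((List.range 143).all fun k =>
    decide (k < 4) || (FinB_c k && FinB_d k)) = true := by
  decide +kernel

/-- **FinB.** -/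
theorem p_FinB : S_FinB := by
  intro k a hk4 hk ha hka
  have h1 := FinB_check
  rw [List.all_eq_true] at h1
  have h2 := h1 k (List.mem_range.mpr (by omega))
  simp only [Bool.or_eq_true, decide_eq_true_eq, Bool.and_eq_true] at h2
  obtain ⟨h3, h4⟩ := h2.resolve_left (by omega)
  unfold FinB_c at h3
  simp only [Bool.and_eq_true, beq_iff_eq, decide_eq_true_eq] at h3
  obtain ⟨⟨h5, h6⟩, h7⟩ := h3
  rw [← FinB_op h5 h6] at h7
  by_cases hA : FinB_a k ≤ a
  · left
    have hpc := FinB_pcle (2 * k + 1)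
    refine h7.trans_le ((Nat.pow_le_pow_left hA _).trans (Nat.pow_le_pow_right (by omega) ?_))
    omega
  · right
    unfold FinB_d at h4
    rw [List.all_eq_true] at h4
    have h8 := h4 a (List.mem_range.mpr (not_le.mp hA))
    simp only [Bool.or_eq_true, beq_iff_eq, decide_eq_true_eq, List.any_eq_true,
      Bool.and_eq_true] at h8
    obtain ⟨r, hr⟩ := ha
    rcases h8 with (h8 | h8) | ⟨p, hp, hp1, hp2⟩
    · omega
    · omega
    · have hpp := FinB_prime p hp
      have hp3 : p ≠ 2 := by omega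
      have hp4 : p % 2 = 1 := hpp.eq_two_or_odd.resolve_left hp3
      refine ⟨(p - a) / 2, by omega, ?_⟩
      have : a + 2 * ((p - a) / 2) = p := by omega
      rw [this]
      exact hpp

end SchH
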