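import Pool.Agent.Lib.SchH.Spec

/-!
Irreducibility of `PP δ m`.
-/

namespace SchH

open Finset Polynomial

private theorem Irr_dvd (s k p i : ℕ) (hi : i < k) (h : p ∣ (2 * s + 1) + 2 * i) :
    p ∣ ∏ t ∈ Ico s (s + k), (2 * t + 1) := by
  refine Dvd.dvd.trans ?_ (Finset.dvd_prod_of_mem (fun t => 2 * t + 1) (a := s + i) ?_)
  · rw [show 2 * (s + i) + 1 = 2 * s + 1 + 2 * i from by ring]
    exact h
  · rw [mem_Ico]
    omega

/-- an odd number `≥ 3` is a power of `3` or has a prime divisor `≥ 5` -/
private theorem Irr_three (a : ℕ) (ha : 3 ≤ a) (hodd : Odd a)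
    (h : ∀ p : ℕ, p.Prime → 5 ≤ p → ¬ p ∣ a) : ∃ r : ℕ, 1 ≤ r ∧ a = 3 ^ r := by
  have hall : ∀ p : ℕ, p.Prime → p ∣ a → p = 3 := by
    intro p hp hpa
    by_contra h3
    have h2 : p ≠ 2 := by
      rintro rfl
      obtain ⟨c, hc⟩ := hodd
      omega
    have h5 : 5 ≤ p := by
      have := hp.two_le
      rcases Nat.lt_or_ge p 5 with h5 | h5
      · interval_cases p
        · exact absurd rfl h2
        · exact absurd rfl h3
        · exact absurd hp (by norm_num)
      · exact h5
    exact h p hp h5 hpa
  have hr := Nat.eq_prime_pow_of_unique_prime_dvd (n := a) (p := 3) (by omega)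
    (fun {d} hd hda => hall d hd hda)
  refine ⟨_, ?_, hr⟩
  by_contra h0
  have h1 : a.primeFactorsList.length = 0 := by omega
  rw [h1, pow_zero] at hr
  omega

theorem c_Irr (hSch : S_Sch) (hTwo : S_Two) (hNoFac : S_NoFac) (hPP : S_PPm) (hLin : S_Lin)
    (hAt3 : S_At3) (hE27 : S_E27) (hX3 : ∀ j, j ≠ 3 → Orch.xe (1 / 6 : ℚ) j ≠ 0) : S_Irr := by
  intro δ m hδ hm
  obtain ⟨hmon, hdeg, hcoe⟩ := hPP δ m
  rw [hmon.irreducible_iff_natDegree']
  refine ⟨?_, ?_⟩
  · intro h
    rw [h, natDegree_one] at hdeg
    omega
  · intro f g hf hg hfg hk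
    rw [hdeg, Finset.mem_Ioc] at hk
    obtain ⟨hk0, hk2⟩ := hk
    set k := g.natDegree with hkd
    have hk2' : 2 * k ≤ m := by omega
    obtain ⟨s, hs⟩ : ∃ s, m + δ = s + k := ⟨m + δ - k, by omega⟩
    have key : ∀ p : ℕ, p.Prime → 2 * k + 1 + 2 * δ ≤ p → ∀ i < k, ¬ p ∣ 2 * s + 1 + 2 * i := by
      intro p hp hpk i hi hdvd
      refine hNoFac p δ m k f g hp hδ hk0 (by omega) hpk ?_ hg rfl hfg
      rw [hs, Nat.add_sub_cancel]
      exact Irr_dvd s k p i hi hdvd
    have hodd : Odd (2 * s + 1) := ⟨s, rfl⟩
    rcases Nat.lt_or_ge k 3 with hk3 | hk3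
    · rcases Nat.lt_or_ge k 2 with hk1 | hk1
      · -- `k = 1`
        have hk1' : k = 1 := by omega
        rcases Nat.le_one_iff_eq_zero_or_eq_one.1 hδ with h0 | h1
        · have hne : 2 * s + 1 ≠ 1 := by omega
          have hp := Nat.minFac_prime hne
          have hpd := Nat.minFac_dvd (2 * s + 1)
          have h3 : 3 ≤ (2 * s + 1).minFac := by
            have h2 := hp.two_le
            rcases Nat.lt_or_ge 2 (2 * s + 1).minFac with h | h
            · exact h
            · exfalso
              have h2' : (2 * s + 1).minFac = 2 := by omega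
              rw [h2'] at hpd
              omega
          refine key _ hp (by omega) 0 (by omega) ?_
          rw [Nat.mul_zero, Nat.add_zero]
          exact hpd
        · by_cases hex : ∃ p : ℕ, p.Prime ∧ 5 ≤ p ∧ p ∣ 2 * s + 1
          · obtain ⟨p, hp, hp5, hpd⟩ := hex
            exact key p hp (by omega) 0 (by omega) (by rw [Nat.mul_zero, Nat.add_zero]; exact hpd)
          · push Not at hex
            obtain ⟨r, hr1, hr⟩ := Irr_three (2 * s + 1) (by omega) hodd hex
            have hsm : 2 * s + 1 = 2 * m + 1 := by omega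
            have hr2 : 2 ≤ r := by
              by_contra hlt
              have : r = 1 := by omega
              rw [this, pow_one] at hr
              omega
            have hgX : g = X + C (g.coeff 0) := hg.eq_X_add_C (by rw [← hkd]; exact hk1')
            have hev : (PP 1 m).eval (-g.coeff 0) = 0 := by
              rw [← h1, ← hfg, eval_mul]
              rw [show g.eval (-g.coeff 0) = 0 from by
                conv_lhs => rw [hgX]
                rw [eval_add, eval_X, eval_C]
                simp]
              rw [mul_zero]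
            have h3 := hLin m r _ hr2 (by rw [← hsm]; exact hr) hev
            rw [h3] at hev
            exact hX3 (2 * m + 1) (by omega) (hAt3 m hev)
      · -- `k = 2`
        have hk2'' : k = 2 := by omega
        rcases Nat.le_one_iff_eq_zero_or_eq_one.1 hδ with h0 | h1
        · rcases Nat.lt_or_ge (2 * s + 1) 7 with h7 | h7
          · have hs5 : 2 * s + 1 = 5 := by omega
            refine key 5 (by norm_num) (by omega) 0 (by omega) ?_
            rw [hs5]
          · by_cases h25 : 2 * s + 1 = 25
            · refine key 5 (by norm_num) (by omega) 0 (by omega) ?_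
              rw [h25]
              norm_num
            · obtain ⟨p, hp, hp7, i, hi, hpd⟩ := hTwo (2 * s + 1) hodd h7 h25
              exact key p hp (by omega) i (by omega) hpd
        · by_cases h25 : 2 * s + 1 = 25
          · have hm13 : m = 13 := by omega
            rw [h1, hm13] at hfg
            exact hE27 f g hg (by rw [← hkd]; exact hk2'') hfg
          · obtain ⟨p, hp, hp7, i, hi, hpd⟩ := hTwo (2 * s + 1) hodd (by omega) h25
            exact key p hp (by omega) i (by omega) hpd
    · rcases Nat.lt_or_ge (2 * s + 1) (2 * k + 3) with hlt | hge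
      · obtain ⟨p, hp, hp1, hp2⟩ := Nat.exists_prime_lt_and_le_two_mul (2 * k) (by omega)
        have hpodd : p % 2 = 1 := by
          rcases hp.eq_two_or_odd with h | h
          · omega
          · exact h
        have hδ0 : δ = 0 := by omega
        refine key p hp (by omega) ((p - (2 * s + 1)) / 2) (by omega) ?_
        rw [show 2 * s + 1 + 2 * ((p - (2 * s + 1)) / 2) = p from by omega]
      · obtain ⟨p, hp, hpk, i, hi, hpd⟩ := hSch k (2 * s + 1) hk3 hodd hge
        exact key p hp (by omega) i hi hpd

end SchH
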