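import Pool.Agent.Lib.SchH.Spec

/-!
Reversal: irreducibility of `PP δ m` gives irreducibility of `XP ℚ (2 m + δ)`.
-/

namespace SchH

open Finset Polynomial

theorem c_IrrRev (hRev : S_Rev) (hPP : S_PPm) : S_IrrRev := by
  intro δ m hδ hm hirr
  obtain ⟨hmon, hdeg, hcoe⟩ := hPP δ m
  set Q : Polynomial ℚ := (PP δ m).map (Int.castRingHom ℚ) with hQ
  have hQi : Irreducible Q := by
    have := (hmon.irreducible_iff_irreducible_map_fraction_map (K := ℚ)).1 hirr
    rwa [show algebraMap ℤ ℚ = Int.castRingHom ℚ from rfl] at this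
  set P : Polynomial ℚ := Orch.XP ℚ (2 * m + δ) with hP
  have hPc : ∀ k, P.coeff k = if k < m + 1 then (-1) ^ k * 2 ^ k * (cf δ m (m - k) : ℚ) else 0 := by
    intro k
    rw [hP, hRev δ m hδ, finsetSum_coeff]
    simp only [coeff_C_mul, coeff_X_pow]
    rw [← sum_filter_add_sum_filter_not (range (m + 1)) (fun x => k = x)]
    rw [sum_eq_zero (s := (range (m + 1)).filter fun x => ¬ k = x)]
    · rw [add_zero]
      by_cases hk : k < m + 1
      · rw [if_pos hk, filter_eq, if_pos (mem_range.2 hk), sum_singleton, if_pos rfl, mul_one]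
      · rw [if_neg hk, filter_eq, if_neg (by rw [mem_range]; exact hk), sum_empty]
    · intro x hx
      rw [mem_filter] at hx
      rw [if_neg hx.2, mul_zero]
  have hcf : ∀ i ≤ m, (cf δ m i : ℚ) ≠ 0 := by
    intro i hi
    have : cf δ m i ≠ 0 :=
      Nat.mul_ne_zero (Nat.choose_pos hi).ne' (Finset.prod_ne_zero_iff.2 fun t _ => by omega)
    exact_mod_cast this
  have hPm : P.coeff m ≠ 0 := by
    rw [hPc, if_pos (by omega)]
    have := hcf (m - m) (by omega)
    positivity
  have hP0 : P.coeff 0 ≠ 0 := by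
    rw [hPc, if_pos (by omega)]
    have := hcf (m - 0) (by omega)
    positivity
  have hPd : P.natDegree = m := by
    apply le_antisymm
    · rw [natDegree_le_iff_coeff_eq_zero]
      intro k hk
      rw [hPc, if_neg (by omega)]
    · exact le_natDegree_of_ne_zero hPm
  have hPne : P ≠ 0 := by
    intro h
    rw [h, coeff_zero] at hPm
    exact hPm rfl
  -- the reversed polynomial
  have hkey : P.reverse.comp (C 2 * X) = C (2 ^ m) * Q := by
    ext i
    rw [coeff_C_mul]
    have e1 : (P.reverse.comp (C 2 * X)).coeff i = P.reverse.coeff i * 2 ^ i := by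
      rw [comp_C_mul_X_coeff]
    rw [e1, coeff_reverse, hPd, hQ, coeff_map]
    by_cases hi : i ≤ m
    · rw [revAt_le hi, hPc, if_pos (by omega), hcoe i hi, show m - (m - i) = i from by omega]
      have e2 : (2 : ℚ) ^ m = 2 ^ (m - i) * 2 ^ i := by
        rw [← pow_add, Nat.sub_add_cancel hi]
      rw [e2]
      simp only [map_mul, map_pow, map_neg, map_one, map_natCast]
      ring
    · have e3 : revAt m i = i := by
        rw [← revAtFun_eq, revAtFun, if_neg (by omega)]
      have e4 : (PP δ m).coeff i = 0 := coeff_eq_zero_of_natDegree_lt (by omega)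
      rw [e3, hPc, if_neg (by omega), e4]
      simp
  constructor
  · intro hu
    have := natDegree_eq_zero_of_isUnit hu
    omega
  · intro a b hab
    have ha0 : a.coeff 0 ≠ 0 := by
      intro h
      rw [hab, mul_coeff_zero, h, zero_mul] at hP0
      exact hP0 rfl
    have hb0 : b.coeff 0 ≠ 0 := by
      intro h
      rw [hab, mul_coeff_zero, h, mul_zero] at hP0
      exact hP0 rfl
    have hdeg2 : ∀ c : Polynomial ℚ, c.coeff 0 ≠ 0 →
        (c.reverse.comp (C 2 * X)).natDegree = c.natDegree := by
      intro c hc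
      rw [natDegree_comp, natDegree_C_mul_X _ (by norm_num), mul_one, reverse_natDegree,
        natTrailingDegree_eq_zero.2 (Or.inr hc), Nat.sub_zero]
    have hmul : Q = (C ((2 ^ m : ℚ)⁻¹) * a.reverse.comp (C 2 * X)) * b.reverse.comp (C 2 * X) := by
      rw [hab, reverse_mul_of_domain, mul_comp] at hkey
      rw [mul_assoc, hkey, ← mul_assoc, ← C_mul, inv_mul_cancel₀ (by positivity), C_1, one_mul]
    rcases hQi.isUnit_or_isUnit hmul with h | h
    · left
      have h1 := natDegree_eq_zero_of_isUnit h
      rw [natDegree_C_mul (by positivity), hdeg2 a ha0] at h1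
      rw [isUnit_iff_degree_eq_zero, degree_eq_natDegree (fun h => ha0 (by rw [h, coeff_zero])), h1]
      rfl
    · right
      have h1 := natDegree_eq_zero_of_isUnit h
      rw [hdeg2 b hb0] at h1
      rw [isUnit_iff_degree_eq_zero, degree_eq_natDegree (fun h => hb0 (by rw [h, coeff_zero])), h1]
      rfl

end SchH
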