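import Pool.Agent.Lib.SchH.Spec

/-!
`S_Lin`: the linear factors of `PP 1 m` for `2 m + 1` a power of `3`.
-/

namespace SchH

open Finset Polynomial

private theorem Lin_p5 (hRoot : S_Root) (m : ℕ) (a : ℤ) (h : (PP 1 m).eval a = 0) (p : ℕ)
    (hp : p.Prime) (h5 : 5 ≤ p) (hd : (p : ℤ) ∣ a) : False := by
  haveI : Fact p.Prime := ⟨hp⟩
  have h0 : aeval (algebraMap ℤ (PadicAlgCl p) a) (PP 1 m) = 0 := by
    rw [aeval_algebraMap_apply_eq_algebraMap_eval, h, map_zero]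
  have h1 := hRoot p 1 m 1 (algebraMap ℤ (PadicAlgCl p) a) le_rfl le_rfl (by omega) h0
  rw [pow_one] at h1
  have h2 : algebraMap ℤ (PadicAlgCl p) a = ((a : ℚ_[p]) : PadicAlgCl p) := by
    rw [eq_intCast]
    exact (map_intCast (algebraMap ℚ_[p] (PadicAlgCl p)) a).symm
  rw [h2, PadicAlgCl.norm_extends] at h1
  have h3 : ‖(a : ℚ_[p])‖ ≤ (p : ℝ) ^ (-(1 : ℕ) : ℤ) := by
    rw [Padic.norm_int_le_pow_iff_dvd]
    simpa using hd
  have h4 : (p : ℝ) ^ (-(1 : ℕ) : ℤ) = (p : ℝ)⁻¹ := by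
    simp
  rw [h4] at h3
  linarith

private theorem Lin_sum (hPPm : S_PPm) (m : ℕ) (a : ℤ) (h : (PP 1 m).eval a = 0) :
    ∑ i ∈ range (m + 1), ((-1 : ℤ) ^ (m - i) * (cf 1 m i : ℤ)) * a ^ i = 0 := by
  obtain ⟨-, hdeg, hco⟩ := hPPm 1 m
  rw [← h, eval_eq_sum_range, hdeg]
  refine sum_congr rfl (fun i hi => ?_)
  rw [mem_range] at hi
  rw [hco i (by omega)]

private theorem Lin_odd (s : Finset ℕ) : Odd (∏ t ∈ s, (2 * t + 1)) := by
  classical
  induction s using Finset.induction_on with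
  | empty => simp
  | insert a s ha ih =>
    rw [prod_insert ha]
    exact (odd_two_mul_add_one a).mul ih

private theorem Lin_cf0 (m : ℕ) : Odd (cf 1 m 0) := by
  unfold cf
  rw [Nat.choose_zero_right, one_mul]
  exact Lin_odd _

private theorem Lin_cfpos (m i : ℕ) (hi : i ≤ m) : 0 < cf 1 m i :=
  Nat.mul_pos (Nat.choose_pos hi) (Finset.prod_pos (fun t _ => by omega))

private theorem Lin_dvd0 (m : ℕ) (a d : ℤ)
    (h : ∑ i ∈ range (m + 1), ((-1 : ℤ) ^ (m - i) * (cf 1 m i : ℤ)) * a ^ i = 0)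
    (hd : ∀ i, 1 ≤ i → i ≤ m → d ∣ (cf 1 m i : ℤ) * a ^ i) : d ∣ (cf 1 m 0 : ℤ) := by
  rw [sum_range_succ', pow_zero, mul_one] at h
  have h1 : d ∣ ∑ i ∈ range m, ((-1 : ℤ) ^ (m - (i + 1)) * (cf 1 m (i + 1) : ℤ)) * a ^ (i + 1) := by
    apply dvd_sum
    intro i hi
    rw [mem_range] at hi
    rw [mul_assoc]
    exact (hd (i + 1) (by omega) (by omega)).mul_left _
  have h2 : d ∣ (-1 : ℤ) ^ (m - 0) * (cf 1 m 0 : ℤ) := by
    exact (dvd_add_right h1).mp (by rw [h]; exact dvd_zero d)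
  rw [IsUnit.dvd_mul_left (by exact (isUnit_one.neg).pow _)] at h2
  exact h2

private theorem Lin_9 (hCf : S_CfDd) (hVal : S_Val) (m : ℕ) (a : ℤ)
    (h : ∑ i ∈ range (m + 1), ((-1 : ℤ) ^ (m - i) * (cf 1 m i : ℤ)) * a ^ i = 0)
    (h9 : (9 : ℤ) ∣ a) : False := by
  haveI : Fact (Nat.Prime 3) := ⟨Nat.prime_three⟩
  have hdd : dd (m + 1) ≠ 0 := Finset.prod_ne_zero_iff.2 fun t _ => by omega
  have h0 : cf 1 m 0 = dd (m + 1) := by
    have h1 := hCf 1 m 0 (Nat.zero_le _)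
    have h2 : dd (0 + 1) = 1 := by simp [dd]
    rw [h2, mul_one, Nat.choose_zero_right, one_mul] at h1
    exact h1
  set v := padicValNat 3 (dd (m + 1)) with hv
  have h1 : 3 ^ v ∣ dd (m + 1) := pow_padicValNat_dvd
  have h2 : ∀ i, 1 ≤ i → i ≤ m → 3 ^ v ∣ cf 1 m i * 3 ^ i := by
    intro i hi him
    have h3 := hCf 1 m i him
    have h4 := hVal 3 (i + 1) Nat.prime_three (by norm_num) (by omega)
    have hd0 : dd (i + 1) ≠ 0 := Finset.prod_ne_zero_iff.2 fun t _ => by omega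
    have h5 : padicValNat 3 (dd (i + 1)) ≤ i := by omega
    have hc0 := (Lin_cfpos m i him).ne'
    have h6 : v ≤ padicValNat 3 (cf 1 m i * dd (i + 1)) := by
      rw [h3, padicValNat.mul (Nat.choose_pos him).ne' hdd]
      omega
    rw [padicValNat.mul hc0 hd0] at h6
    rw [padicValNat_dvd_iff_le (Nat.mul_ne_zero hc0 (by positivity)),
      padicValNat.mul hc0 (by positivity), padicValNat.prime_pow]
    omega
  have h3 : ((3 ^ (v + 1) : ℕ) : ℤ) ∣ (cf 1 m 0 : ℤ) := by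
    refine Lin_dvd0 m a _ h (fun i hi him => ?_)
    have h4 : (9 : ℤ) ^ i ∣ a ^ i := pow_dvd_pow_of_dvd h9 i
    refine dvd_trans ?_ (mul_dvd_mul_left _ h4)
    have h5 : ((3 ^ (v + 1) : ℕ) : ℤ) = ((3 ^ v : ℕ) : ℤ) * 3 := by push_cast; ring
    have h6 : (cf 1 m i : ℤ) * 9 ^ i = ((cf 1 m i * 3 ^ i : ℕ) : ℤ) * 3 ^ i := by
      push_cast
      rw [mul_assoc, ← mul_pow]
      norm_num
    rw [h5, h6]
    exact mul_dvd_mul (Int.natCast_dvd_natCast.mpr (h2 i hi him)) (dvd_pow_self 3 (by omega))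
  rw [Int.natCast_dvd_natCast, h0, padicValNat_dvd_iff_le hdd] at h3
  omega

private theorem Lin_neg (m : ℕ) (a : ℤ)
    (h : ∑ i ∈ range (m + 1), ((-1 : ℤ) ^ (m - i) * (cf 1 m i : ℤ)) * a ^ i = 0) : 0 ≤ a := by
  by_contra hneg
  push Not at hneg
  have h1 : ∑ i ∈ range (m + 1), (cf 1 m i : ℤ) * (-a) ^ i = 0 := by
    have h2 : (-1 : ℤ) ^ m * ∑ i ∈ range (m + 1), (cf 1 m i : ℤ) * (-a) ^ i = 0 := by
      rw [← h, mul_sum]
      refine sum_congr rfl (fun i hi => ?_)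
      rw [mem_range] at hi
      obtain ⟨j, hj⟩ := Nat.exists_eq_add_of_le (show i ≤ m by omega)
      subst hj
      rw [Nat.add_sub_cancel_left, pow_add, neg_pow a i]
      have h3 : (-1 : ℤ) ^ i * (-1) ^ i = 1 := by
        rw [← mul_pow]
        norm_num
      calc (-1 : ℤ) ^ i * (-1) ^ j * ((cf 1 (i + j) i : ℤ) * ((-1) ^ i * a ^ i))
          = ((-1 : ℤ) ^ i * (-1) ^ i) * ((-1) ^ j * (cf 1 (i + j) i : ℤ) * a ^ i) := by ring
        _ = _ := by rw [h3, one_mul]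
    rcases mul_eq_zero.mp h2 with h3 | h3
    · exact absurd h3 (pow_ne_zero _ (by norm_num))
    · exact h3
  have h4 : 0 < ∑ i ∈ range (m + 1), (cf 1 m i : ℤ) * (-a) ^ i := by
    apply sum_pos
    · intro i hi
      rw [mem_range] at hi
      have h5 := Lin_cfpos m i (by omega)
      have h6 : (0 : ℤ) < (cf 1 m i : ℤ) := by exact_mod_cast h5
      have h7 : (0 : ℤ) < (-a) ^ i := pow_pos (by omega) _
      positivity
    · exact ⟨0, by simp⟩
  omega

theorem c_Lin (hRoot : S_Root) (hPPm : S_PPm) (hCf : S_CfDd) (hVal : S_Val) : S_Lin := by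
  intro m r a hr hm h
  have hs := Lin_sum hPPm m a h
  have hm1 : 1 ≤ m := by
    have : 3 ^ 2 ≤ 3 ^ r := Nat.pow_le_pow_right (by norm_num) hr
    omega
  have h0 := Lin_neg m a hs
  have h9 : ¬ (9 : ℤ) ∣ a := fun h9 => Lin_9 hCf hVal m a hs h9
  have h2 : ¬ (2 : ℤ) ∣ a := by
    intro h2
    have h3 := Lin_dvd0 m a 2 hs (fun i hi _ => (h2.trans (dvd_pow_self a (by omega))).mul_left _)
    obtain ⟨t, ht⟩ := Lin_cf0 m
    omega
  have h3 : (3 : ℤ) ∣ a := by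
    have h4 : (3 : ℤ) ∣ a ^ m := by
      rw [sum_range_succ] at hs
      have h5 : (3 : ℤ) ∣ ∑ i ∈ range m, ((-1 : ℤ) ^ (m - i) * (cf 1 m i : ℤ)) * a ^ i := by
        apply dvd_sum
        intro i hi
        rw [mem_range] at hi
        have h6 : 3 ∣ cf 1 m i := by
          unfold cf
          apply Dvd.dvd.mul_left
          have h7 : 2 * m + 1 ∣ ∏ t ∈ Ico (i + 1) (m + 1), (2 * t + 1) :=
            dvd_prod_of_mem (fun t => 2 * t + 1) (by rw [mem_Ico]; omega)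
          refine dvd_trans ?_ h7
          rw [hm]
          exact dvd_pow_self 3 (by omega)
        have h8 : (3 : ℤ) ∣ (cf 1 m i : ℤ) := by exact_mod_cast h6
        exact (h8.mul_left _).mul_right _
      have h6 := (dvd_add_right h5).mp (by rw [hs]; exact dvd_zero (3 : ℤ))
      have h7 : ((-1 : ℤ) ^ (m - m) * (cf 1 m m : ℤ)) * a ^ m = a ^ m := by
        simp [cf]
      rw [h7] at h6
      exact h6
    exact Int.prime_three.dvd_of_dvd_pow h4
  obtain ⟨b, rfl⟩ := h3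
  have hb : b.natAbs = 1 := by
    by_contra hb
    have hp := Nat.minFac_prime hb
    have hd : ((b.natAbs.minFac : ℕ) : ℤ) ∣ b := by
      rw [← Int.dvd_natAbs]
      exact_mod_cast Nat.minFac_dvd _
    rcases Nat.lt_or_ge b.natAbs.minFac 5 with h5 | h5
    · have h6 := hp.two_le
      have h7 : b.natAbs.minFac = 2 ∨ b.natAbs.minFac = 3 ∨ b.natAbs.minFac = 4 := by omega
      rcases h7 with h7 | h7 | h7
      · rw [h7] at hd
        push_cast at hd
        exact h2 (hd.mul_left 3)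
      · rw [h7] at hd
        push_cast at hd
        apply h9
        obtain ⟨c, rfl⟩ := hd
        exact ⟨c, by ring⟩
      · rw [h7] at hp
        exact absurd hp (by norm_num)
    · exact Lin_p5 hRoot m _ h _ hp h5 (hd.mul_left 3)
  omega

end SchH
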