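import Pool.Agent.Lib.SchH.Spec

/-!
No factor of degree `k` of `PP δ m` if a prime `p ≥ 2 k + 1 + 2 δ` divides the product of the `k` top odd
numbers.
-/

namespace SchH

open Finset Polynomial

private theorem NoFac_zero (p δ m k : ℕ) (f g : Polynomial ℤ) (hp : p.Prime) (hPP : S_PPm)
    (hk : 1 ≤ k) (hkm : k ≤ m) (hdvd : p ∣ ∏ t ∈ Ico (m + δ - k) (m + δ), (2 * t + 1))
    (hg : g.Monic) (hgk : g.natDegree = k) (hfg : f * g = PP δ m) : (p : ℤ) ∣ g.coeff 0 := by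
  have := Fact.mk hp
  obtain ⟨hmon, hdeg, hcoe⟩ := hPP δ m
  have hf : f.Monic := hg.of_mul_monic_right (by rw [hfg]; exact hmon)
  have hfd : f.natDegree = m - k := by
    have h := hf.natDegree_mul hg
    rw [hfg, hdeg, hgk] at h
    omega
  set φ := Int.castRingHom (ZMod p) with hφ
  have hX : (X : Polynomial (ZMod p)) ^ (m - k + 1) ∣ f.map φ * g.map φ := by
    rw [← Polynomial.map_mul, hfg, X_pow_dvd_iff]
    intro d hd
    rw [coeff_map, hcoe d (by omega)]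
    have hpc : p ∣ cf δ m d := by
      rw [cf]
      refine Dvd.dvd.mul_left (hdvd.trans ?_) _
      refine prod_dvd_prod_of_subset _ _ _ ?_
      intro t ht
      rw [mem_Ico] at ht ⊢
      omega
    have e1 : φ ((cf δ m d : ℕ) : ℤ) = 0 := by
      rw [map_natCast, (ZMod.natCast_eq_zero_iff _ _).2 hpc]
    rw [map_mul, e1, mul_zero]
  have hXG : (X : Polynomial (ZMod p)) ∣ g.map φ := by
    by_contra hn
    have h1 : (X : Polynomial (ZMod p)) ^ (m - k + 1) ∣ f.map φ :=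
      prime_X.pow_dvd_of_dvd_mul_right _ hn hX
    have h2 := natDegree_le_of_dvd h1 (hf.map φ).ne_zero
    rw [natDegree_X_pow, hf.natDegree_map, hfd] at h2
    omega
  rw [X_dvd_iff, coeff_map, hφ, Int.coe_castRingHom, ZMod.intCast_zmod_eq_zero_iff_dvd] at hXG
  exact hXG

private theorem NoFac_prod (p : ℕ) [Fact p.Prime] (k : ℕ) (c : ℝ) (hc : 0 < c)
    (s : Multiset (PadicAlgCl p)) (h : ∀ α ∈ s, c < ‖α‖ ^ k) :
    c ^ Multiset.card s ≤ ‖s.prod‖ ^ k ∧ (s ≠ 0 → c ^ Multiset.card s < ‖s.prod‖ ^ k) := by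
  induction s using Multiset.induction_on with
  | empty => simp
  | cons a s ih =>
    obtain ⟨ih1, -⟩ := ih fun α hα => h α (Multiset.mem_cons_of_mem hα)
    have ha := h a (Multiset.mem_cons_self a s)
    have hlt : c ^ Multiset.card (a ::ₘ s) < ‖(a ::ₘ s).prod‖ ^ k := by
      rw [Multiset.card_cons, Multiset.prod_cons, norm_mul, mul_pow, pow_succ, mul_comm]
      exact mul_lt_mul ha ih1 (pow_pos hc _) (by positivity)
    exact ⟨hlt.le, fun _ => hlt⟩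

theorem c_NoFac (hR : S_Root) (hPP : S_PPm) : S_NoFac := by
  intro p δ m k f g hp hδ hk hkm hpk hdvd hg hgk hfg
  have := Fact.mk hp
  have hp1 : (1 : ℝ) < p := by exact_mod_cast hp.one_lt
  have hp0 : (0 : ℝ) < (p : ℝ)⁻¹ := by positivity
  obtain ⟨q, hq⟩ := NoFac_zero p δ m k f g hp hPP hk hkm hdvd hg hgk hfg
  set ψ := algebraMap ℤ (PadicAlgCl p) with hψ
  have hs : (g.map ψ).Splits := IsAlgClosed.splits _
  have hmon := hg.map ψ
  have h0 := hs.coeff_zero_eq_prod_roots_of_monic hmon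
  have hcard : Multiset.card (g.map ψ).roots = k := by
    rw [← hs.natDegree_eq_card_roots, hg.natDegree_map, hgk]
  have hroots : ∀ α ∈ (g.map ψ).roots, (p : ℝ)⁻¹ < ‖α‖ ^ k := by
    intro α hα
    have h1 := (mem_roots'.1 hα).2
    refine hR p δ m k α hδ hk hpk ?_
    rw [← hfg, map_mul]
    rw [IsRoot, eval_map_algebraMap] at h1
    rw [h1, mul_zero]
  obtain ⟨-, hlt⟩ := NoFac_prod p k _ hp0 _ hroots
  have hne : (g.map ψ).roots ≠ 0 := by
    intro h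
    rw [h, Multiset.card_zero] at hcard
    omega
  replace hlt := hlt hne
  rw [hcard] at hlt
  have hk0 : k ≠ 0 := by omega
  have hlt2 : (p : ℝ)⁻¹ < ‖(g.map ψ).roots.prod‖ := lt_of_pow_lt_pow_left₀ k (norm_nonneg _) hlt
  have hn : ‖(g.map ψ).coeff 0‖ = ‖(g.map ψ).roots.prod‖ := by
    rw [h0, norm_mul, norm_pow, norm_neg, norm_one, one_pow, one_mul]
  have hle : ‖(g.map ψ).coeff 0‖ ≤ (p : ℝ)⁻¹ := by
    rw [coeff_map, hq]
    have e0 : ψ ((p : ℤ) * q) = (((p : ℤ) * q : ℤ) : PadicAlgCl p) := eq_intCast ψ _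
    rw [e0]
    have e1 : (((p : ℤ) * q : ℤ) : PadicAlgCl p) =
        algebraMap ℚ_[p] (PadicAlgCl p) (((p : ℤ) * q : ℤ) : ℚ_[p]) := by
      rw [map_intCast]
    rw [e1]
    have e2 := PadicAlgCl.norm_extends (p := p) ((((p : ℤ) * q : ℤ) : ℚ_[p]))
    rw [show ‖algebraMap ℚ_[p] (PadicAlgCl p) ((((p : ℤ) * q : ℤ) : ℚ_[p]))‖ =
      ‖((((p : ℤ) * q : ℤ) : ℚ_[p]))‖ from e2]
    push_cast
    rw [norm_mul, Padic.norm_p]
    have : ‖(q : ℚ_[p])‖ ≤ 1 := Padic.norm_int_le_one q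
    calc (p : ℝ)⁻¹ * ‖(q : ℚ_[p])‖ ≤ (p : ℝ)⁻¹ * 1 := by gcongr
      _ = (p : ℝ)⁻¹ := mul_one _
  rw [hn] at hle
  exact absurd hlt2 (not_lt.2 hle)

end SchH
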