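import Pool.Agent.Lib.SchH.Spec

/-!
`S_NoMul`: a prime `p < a` with `a + 2 k - 2 < 3 p` divides none of the numbers.
-/

namespace SchH

open Finset

theorem p_NoMul : S_NoMul := by
  intro p a k hp hp2 ha hk hpa h3 hdvd
  unfold od at hdvd
  rw [hp.prime.dvd_finset_prod_iff] at hdvd
  obtain ⟨i, hi, q, hq⟩ := hdvd
  rw [mem_range] at hi
  have h1 : Odd (p * q) := by
    rw [← hq]
    exact ha.add_even (even_two_mul i)
  have h2 : Odd q := (Nat.odd_mul.mp h1).2
  have h4 : q ≠ 1 := by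
    rintro rfl
    omega
  obtain ⟨r, hr⟩ := h2
  have h5 : 3 ≤ q := by omega
  have h6 : p * 3 ≤ p * q := Nat.mul_le_mul_left p h5
  omega

end SchH
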