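import Pool.Agent.Lib.SchH.Spec

/-!
`S_OddFac`: bound for the odd part of `k !`.
-/

namespace SchH

open Finset

private theorem OddFac_two (k : ℕ) (hk : 1 ≤ k) :
    2 ^ k ≤ 2 * k * 2 ^ (k.factorial.factorization 2) := by
  haveI : Fact (Nat.Prime 2) := ⟨Nat.prime_two⟩
  have h1 := sub_one_mul_padicValNat_factorial (p := 2) k
  rw [show 2 - 1 = 1 from rfl, one_mul] at h1
  have h2 : k.factorial.factorization 2 = padicValNat 2 k.factorial :=
    Nat.factorization_def _ Nat.prime_two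
  have h3 : (Nat.digits 2 k).sum ≤ Nat.log 2 k + 1 := by
    have h4 : (Nat.digits 2 k).length = Nat.log 2 k + 1 :=
      Nat.digits_len 2 k (by norm_num) (by omega)
    rw [← h4]
    have h5 := List.sum_le_card_nsmul (Nat.digits 2 k) 1 (fun x hx => by
      have := Nat.digits_lt_base (by norm_num : 1 < 2) hx
      omega)
    simpa using h5
  have h6 : 2 ^ Nat.log 2 k ≤ k := Nat.pow_log_le_self 2 (by omega)
  have h7 : k ≤ (Nat.log 2 k + 1) + padicValNat 2 k.factorial := by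
    rw [h1]
    omega
  calc 2 ^ k ≤ 2 ^ ((Nat.log 2 k + 1) + padicValNat 2 k.factorial) :=
        Nat.pow_le_pow_right (by norm_num) h7
    _ = 2 * 2 ^ Nat.log 2 k * 2 ^ padicValNat 2 k.factorial := by ring
    _ ≤ 2 * k * 2 ^ (k.factorial.factorization 2) := by
        rw [h2]
        exact Nat.mul_le_mul_right _ (Nat.mul_le_mul_left 2 h6)

private theorem OddFac_step (k : ℕ) : Real.exp 1 * (k : ℝ) ^ (k + 1) ≤ ((k : ℝ) + 1) ^ (k + 1) := by
  have hk : (0 : ℝ) < (k : ℝ) + 1 := by positivity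
  have h1 : (k : ℝ) / (k + 1) ≤ Real.exp (-(1 / ((k : ℝ) + 1))) := by
    have h2 := Real.add_one_le_exp (-(1 / ((k : ℝ) + 1)))
    have h3 : (k : ℝ) / (k + 1) = -(1 / ((k : ℝ) + 1)) + 1 := by field_simp; ring
    rw [h3]
    exact h2
  have h4 : ((k : ℝ) / (k + 1)) ^ (k + 1) ≤ Real.exp (-1) := by
    calc ((k : ℝ) / (k + 1)) ^ (k + 1) ≤ (Real.exp (-(1 / ((k : ℝ) + 1)))) ^ (k + 1) :=
          pow_le_pow_left₀ (by positivity) h1 _
      _ = Real.exp (-1) := by
          rw [← Real.exp_nat_mul]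
          congr 1
          push_cast
          field_simp
  rw [div_pow, div_le_iff₀ (by positivity)] at h4
  calc Real.exp 1 * (k : ℝ) ^ (k + 1) ≤ Real.exp 1 * (Real.exp (-1) * ((k : ℝ) + 1) ^ (k + 1)) :=
        mul_le_mul_of_nonneg_left h4 (Real.exp_pos _).le
    _ = ((k : ℝ) + 1) ^ (k + 1) := by
        rw [← mul_assoc, ← Real.exp_add]
        norm_num

private theorem OddFac_fac (k : ℕ) :
    ((k + 1).factorial : ℝ) * Real.exp 1 ^ k ≤ ((k : ℝ) + 1) ^ (k + 2) := by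
  induction k with
  | zero => norm_num
  | succ k ih =>
    have h1 := OddFac_step (k + 1)
    push_cast at h1 ⊢
    rw [Nat.factorial_succ]
    push_cast
    calc ((k : ℝ) + 1 + 1) * ((k + 1).factorial : ℝ) * Real.exp 1 ^ (k + 1)
        = ((k : ℝ) + 1 + 1) * Real.exp 1 * (((k + 1).factorial : ℝ) * Real.exp 1 ^ k) := by ring
      _ ≤ ((k : ℝ) + 1 + 1) * Real.exp 1 * ((k : ℝ) + 1) ^ (k + 2) :=
          mul_le_mul_of_nonneg_left ih (by positivity)
      _ = ((k : ℝ) + 1 + 1) * (Real.exp 1 * ((k : ℝ) + 1) ^ (k + 1 + 1)) := by ring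
      _ ≤ ((k : ℝ) + 1 + 1) * ((k : ℝ) + 1 + 1) ^ (k + 1 + 1) :=
          mul_le_mul_of_nonneg_left h1 (by positivity)
      _ = _ := by ring

theorem p_OddFac : S_OddFac := by
  intro k hk
  have h1 : (op k.factorial : ℝ) * 2 ^ (k.factorial.factorization 2) = (k.factorial : ℝ) := by
    unfold op
    have h2 : k.factorial / 2 ^ k.factorial.factorization 2 * 2 ^ (k.factorial.factorization 2) =
        k.factorial := Nat.div_mul_cancel (Nat.ordProj_dvd _ _)
    exact_mod_cast h2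
  have h3 : (2 : ℝ) ^ k ≤ 2 * k * 2 ^ (k.factorial.factorization 2) := by
    exact_mod_cast OddFac_two k hk
  have h4 : (op k.factorial : ℝ) * 2 ^ k ≤ 2 * k * k.factorial := by
    rw [← h1]
    calc (op k.factorial : ℝ) * 2 ^ k ≤ op k.factorial * (2 * k * 2 ^ (k.factorial.factorization 2)) :=
          mul_le_mul_of_nonneg_left h3 (Nat.cast_nonneg _)
      _ = _ := by ring
  obtain ⟨j, rfl⟩ : ∃ j, k = j + 1 := ⟨k - 1, by omega⟩
  have h5 := OddFac_fac j
  calc (op (j + 1).factorial : ℝ) * (2 * Real.exp 1) ^ (j + 1)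
      = (op (j + 1).factorial : ℝ) * 2 ^ (j + 1) * Real.exp 1 ^ (j + 1) := by rw [mul_pow]; ring
    _ ≤ 2 * ((j + 1 : ℕ) : ℝ) * (j + 1).factorial * Real.exp 1 ^ (j + 1) :=
        mul_le_mul_of_nonneg_right h4 (by positivity)
    _ = 2 * ((j + 1 : ℕ) : ℝ) * Real.exp 1 * (((j + 1).factorial : ℝ) * Real.exp 1 ^ j) := by ring
    _ ≤ 2 * ((j + 1 : ℕ) : ℝ) * Real.exp 1 * ((j : ℝ) + 1) ^ (j + 2) :=
        mul_le_mul_of_nonneg_left h5 (by positivity)
    _ = _ := by push_cast; ring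

end SchH
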