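import Pool.Agent.Lib.SchH.Spec

/-!
`S_PcHalf`: few odd primes `≤ 2 k + 1`.
-/

namespace SchH

open Finset

private theorem PcHalf_pi : Nat.primeCounting' 211 = 46 := by
  decide +kernel

private theorem PcHalf_tot : Nat.totient 210 = 48 := by
  decide +kernel

theorem p_PcHalf : S_PcHalf := by
  intro k hk
  have h1 : pc (2 * k + 1) + 1 ≤ Nat.primeCounting' (2 * k + 2) := by
    have h2 : Nat.primeCounting' (2 * k + 2) = ((range (2 * k + 2)).filter Nat.Prime).card := by
      unfold Nat.primeCounting'
      rw [Nat.count_eq_card_filter_range]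
    rw [h2]
    unfold pc
    rw [← card_insert_of_notMem (a := 2) (by simp)]
    refine card_le_card ?_
    intro p hp
    rw [mem_insert] at hp
    rcases hp with rfl | hp
    · rw [mem_filter, mem_range]
      exact ⟨by omega, Nat.prime_two⟩
    · rw [mem_filter, mem_range] at hp ⊢
      exact ⟨hp.1, hp.2.1⟩
  have h3 := Nat.primeCounting'_add_le (a := 210) (k := 211) (by norm_num) (by norm_num)
    (2 * k - 209)
  have h4 : 211 + (2 * k - 209) = 2 * k + 2 := by omega
  rw [h4, PcHalf_pi, PcHalf_tot] at h3
  omega

end SchH
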