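import Pool.Agent.Lib.SchH.Spec

/-!
`S_PcThird`: primes `> 3` are `± 1` mod `6`.
-/

namespace SchH

open Finset

private theorem PcThird_count (N : ℕ) :
    ((range (N + 1)).filter (fun n => n % 6 = 1 ∨ n % 6 = 5)).card = (N + 5) / 6 + (N + 1) / 6 := by
  induction N with
  | zero => rfl
  | succ N ih =>
    rw [range_add_one, filter_insert]
    by_cases h : (N + 1) % 6 = 1 ∨ (N + 1) % 6 = 5
    · rw [if_pos h, card_insert_of_notMem (by simp), ih]
      omega
    · rw [if_neg h, ih]
      omega

private theorem PcThird_mod {p : ℕ} (hp : p.Prime) (h2 : p ≠ 2) (h3 : p ≠ 3) :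
    p % 6 = 1 ∨ p % 6 = 5 := by
  have e2 : ¬ 2 ∣ p := fun h => h2 ((Nat.prime_dvd_prime_iff_eq Nat.prime_two hp).mp h).symm
  have e3 : ¬ 3 ∣ p := fun h => h3 ((Nat.prime_dvd_prime_iff_eq Nat.prime_three hp).mp h).symm
  omega

theorem p_PcThird : S_PcThird := by
  intro N
  have h1 : pc N ≤ ((range (N + 1)).filter (fun n => n % 6 = 1 ∨ n % 6 = 5)).card := by
    unfold pc
    refine card_le_card_of_injOn (fun p => if p = 3 then 1 else p) ?_ ?_
    · intro p hp
      rw [coe_filter, Set.mem_setOf_eq, mem_range] at hp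
      rw [coe_filter, Set.mem_setOf_eq, mem_range]
      by_cases h3 : p = 3
      · have h1 := hp.1
        refine ⟨?_, ?_⟩
        · simp only [h3, if_true]
          omega
        · left
          simp only [h3, if_true]
      · simp only [if_neg h3]
        exact ⟨hp.1, PcThird_mod hp.2.1 hp.2.2 h3⟩
    · intro p hp q hq hpq
      rw [coe_filter, Set.mem_setOf_eq, mem_range] at hp hq
      have hp1 := hp.2.1.one_lt
      have hq1 := hq.2.1.one_lt
      by_cases h3 : p = 3 <;> by_cases h3' : q = 3
      · rw [h3, h3']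
      · simp only [h3, if_true, if_neg h3'] at hpq
        omega
      · simp only [h3', if_true, if_neg h3] at hpq
        omega
      · simpa only [if_neg h3, if_neg h3'] using hpq
  rw [PcThird_count] at h1
  omega

end SchH
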