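import Pool.Agent.Lib.SchH.Spec

/-!
A bound for a product of consecutive odd numbers all of whose prime divisors are at most `M`.
-/

namespace SchH

open Finset Polynomial

private theorem ProdB_pos {a k : ℕ} (ha : Odd a) : od a k ≠ 0 := by
  unfold od
  rw [Finset.prod_ne_zero_iff]
  intro i _
  have := ha.pos
  omega

private theorem ProdB_odd {a k : ℕ} (ha : Odd a) : ¬ 2 ∣ od a k := by
  unfold od
  rw [Prime.dvd_finsetProd_iff Nat.prime_two.prime]
  rintro ⟨i, _, h⟩
  obtain ⟨b, rfl⟩ := ha
  omega

private theorem ProdB_op {N : ℕ} (hN : N ≠ 0) (T : Finset ℕ) (h2 : 2 ∉ T) (hT : ∀ p ∈ T, p.Prime) :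
    ∏ p ∈ T, p ^ N.factorization p ≤ op N := by
  unfold op
  rw [Nat.le_div_iff_mul_le (by positivity)]
  have h1 : (∏ p ∈ T, p ^ N.factorization p) * 2 ^ N.factorization 2 =
      ∏ p ∈ insert 2 T, p ^ N.factorization p := by
    rw [Finset.prod_insert h2, mul_comm]
  have h3 : ∏ p ∈ insert 2 T ∪ N.factorization.support, p ^ N.factorization p = N := by
    conv_rhs => rw [← Nat.prod_factorization_pow_eq_self hN]
    unfold Finsupp.prod
    symm
    refine Finset.prod_subset Finset.subset_union_right ?_
    intro p _ hp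
    rw [Finsupp.notMem_support_iff] at hp
    rw [hp]
    exact pow_zero p
  rw [h1]
  calc ∏ p ∈ insert 2 T, p ^ N.factorization p
      ≤ ∏ p ∈ insert 2 T ∪ N.factorization.support, p ^ N.factorization p := by
        refine Finset.prod_le_prod_of_subset_of_one_le' Finset.subset_union_left ?_
        intro p hp _
        refine Nat.one_le_pow _ _ ?_
        rw [Finset.mem_union, Finset.mem_insert] at hp
        rcases hp with (rfl | hp) | hp
        · norm_num
        · exact (hT p hp).pos
        · exact (Nat.prime_of_mem_primeFactors hp).pos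
    _ = N := h3

private theorem ProdB_d (n M : ℕ) (hn : 1 ≤ n) (T : Finset ℕ) (h2 : 2 ∉ T)
    (hT : ∀ p ∈ T, p.Prime) (hM : ∀ p ∈ T, p ≤ M) (d : ℕ → ℕ) (hd : ∀ p ∈ T, p ^ d p ≤ n) :
    ∏ p ∈ T, p ^ d p ≤ n ^ pc (Nat.sqrt n) * 4 ^ M := by
  rw [← Finset.prod_filter_mul_prod_filter_not T (fun p => p ≤ Nat.sqrt n)]
  refine Nat.mul_le_mul ?_ ?_
  · calc ∏ p ∈ T.filter (fun p => p ≤ Nat.sqrt n), p ^ d p
        ≤ ∏ p ∈ T.filter (fun p => p ≤ Nat.sqrt n), n :=
          Finset.prod_le_prod' fun p hp => hd p (Finset.mem_filter.1 hp).1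
      _ = n ^ (T.filter (fun p => p ≤ Nat.sqrt n)).card := by rw [Finset.prod_const]
      _ ≤ n ^ pc (Nat.sqrt n) := by
          refine Nat.pow_le_pow_right hn ?_
          unfold pc
          refine Finset.card_le_card ?_
          intro p hp
          rw [Finset.mem_filter] at hp
          rw [Finset.mem_filter, Finset.mem_range]
          refine ⟨by omega, hT p hp.1, ?_⟩
          rintro rfl
          exact h2 hp.1
  · calc ∏ p ∈ T.filter (fun p => ¬ p ≤ Nat.sqrt n), p ^ d p
        ≤ ∏ p ∈ T.filter (fun p => ¬ p ≤ Nat.sqrt n), p := by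
          refine Finset.prod_le_prod' fun p hp => ?_
          rw [Finset.mem_filter] at hp
          have h1 : n < p ^ 2 := Nat.sqrt_lt'.1 (by omega)
          have h3 : p ^ d p < p ^ 2 := lt_of_le_of_lt (hd p hp.1) h1
          have h4 : d p < 2 := (Nat.pow_lt_pow_iff_right (hT p hp.1).one_lt).1 h3
          calc p ^ d p ≤ p ^ 1 := Nat.pow_le_pow_right (hT p hp.1).pos (by omega)
            _ = p := pow_one p
      _ ≤ primorial M := by
          unfold primorial
          refine Finset.prod_le_prod_of_subset_of_one_le' ?_ ?_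
          · intro p hp
            rw [Finset.mem_filter] at hp
            rw [Finset.mem_filter, Finset.mem_range]
            exact ⟨by have := hM p hp.1; omega, hT p hp.1⟩
          · intro p hp _
            exact (Finset.mem_filter.1 hp).2.pos
      _ ≤ 4 ^ M := primorial_le_four_pow M

theorem c_ProdB (hE : S_Exp) : S_ProdB := by
  intro a k M ha hk hn hM
  have h0 : od a k ≠ 0 := ProdB_pos ha
  have hodd : ¬ 2 ∣ od a k := ProdB_odd ha
  set T := (od a k).primeFactors with hTdef
  have hp : ∀ p ∈ T, p.Prime := fun p hp => Nat.prime_of_mem_primeFactors hp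
  have hdv : ∀ p ∈ T, p ∣ od a k := fun p hp => Nat.dvd_of_mem_primeFactors hp
  have h2 : 2 ∉ T := fun h => hodd (hdv 2 h)
  have h3 := ProdB_op (Nat.factorial_ne_zero k) T h2 hp
  have h4 := ProdB_d (a + 2 * k - 2) M (by omega) T h2 hp (fun p h => hM p (hp p h) (hdv p h))
    (fun p => (od a k).factorization p - (k.factorial).factorization p)
    (fun p h => hE p a k (hp p h) (by rintro rfl; exact h2 h) ha hk)
  calc od a k = ∏ p ∈ T, p ^ (od a k).factorization p := by
        conv_lhs => rw [← Nat.prod_factorization_pow_eq_self h0]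
        rfl
    _ ≤ ∏ p ∈ T, p ^ (k.factorial).factorization p *
          p ^ ((od a k).factorization p - (k.factorial).factorization p) := by
        refine Finset.prod_le_prod' fun p h => ?_
        rw [← pow_add]
        exact Nat.pow_le_pow_right (hp p h).pos (by omega)
    _ = (∏ p ∈ T, p ^ (k.factorial).factorization p) *
          ∏ p ∈ T, p ^ ((od a k).factorization p - (k.factorial).factorization p) :=
        Finset.prod_mul_distrib
    _ ≤ op k.factorial * ((a + 2 * k - 2) ^ pc (Nat.sqrt (a + 2 * k - 2)) * 4 ^ M) :=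
        Nat.mul_le_mul h3 h4
    _ = _ := by ring

end SchH
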