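import Pool.Agent.Lib.SchH.Spec

/-!
`S_Rem`: the removal bound for products of consecutive odd numbers.
-/

namespace SchH

open Finset

/-- `∏_{i < j + 1 + m, i ≠ j} |i - j| = j! m!` -/
private theorem Rem_prod (j m : ℕ) :
    ∏ i ∈ (range (j + 1 + m)).erase j, ((i - j) + (j - i)) = j.factorial * m.factorial := by
  have h1 : ∏ i ∈ (range (j + 1 + m)).erase j, ((i - j) + (j - i)) =
      ∏ i ∈ range (j + 1 + m), (if i = j then 1 else (i - j) + (j - i)) := by
    rw [← mul_prod_erase (range (j + 1 + m)) (fun i => if i = j then 1 else (i - j) + (j - i))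
      (mem_range.mpr (by omega : j < j + 1 + m))]
    rw [if_pos rfl, one_mul]
    refine prod_congr rfl ?_
    intro i hi
    rw [if_neg (ne_of_mem_erase hi)]
  rw [h1, prod_range_add, prod_range_succ, if_pos rfl, mul_one]
  have h2 : ∏ i ∈ range j, (if i = j then 1 else (i - j) + (j - i)) = j.factorial := by
    rw [← prod_range_add_one_eq_factorial, ← prod_range_reflect]
    refine prod_congr rfl ?_
    intro i hi
    have := mem_range.mp hi
    rw [if_neg (by omega)]
    omega
  have h3 : ∏ i ∈ range m, (if j + 1 + i = j then 1 else (j + 1 + i - j) + (j - (j + 1 + i))) =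
      m.factorial := by
    rw [← prod_range_add_one_eq_factorial]
    refine prod_congr rfl ?_
    intro i _
    rw [if_neg (by omega)]
    omega
  rw [h2, h3]

/-- comparison of valuations -/
private theorem Rem_val {p a i j : ℕ} (hp : p.Prime) (hp2 : p ≠ 2) (ha : 0 < a) (hij : i ≠ j)
    (h : (a + 2 * i).factorization p ≤ (a + 2 * j).factorization p) :
    (a + 2 * i).factorization p ≤ ((i - j) + (j - i)).factorization p := by
  set v := (a + 2 * i).factorization p with hv
  have h1 : p ^ v ∣ a + 2 * i := (hp.pow_dvd_iff_le_factorization (by omega)).mpr le_rfl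
  have h2 : p ^ v ∣ a + 2 * j := (hp.pow_dvd_iff_le_factorization (by omega)).mpr h
  have h3 : p ^ v ∣ 2 * ((i - j) + (j - i)) := by
    rcases Nat.lt_or_gt_of_ne hij with h4 | h4
    · have := (Nat.dvd_sub h2 h1)
      have e : a + 2 * j - (a + 2 * i) = 2 * ((i - j) + (j - i)) := by omega
      rwa [e] at this
    · have := (Nat.dvd_sub h1 h2)
      have e : a + 2 * i - (a + 2 * j) = 2 * ((i - j) + (j - i)) := by omega
      rwa [e] at this
  have h4 : Nat.Coprime (p ^ v) 2 :=
    Nat.Coprime.pow_left v ((Nat.coprime_primes hp Nat.prime_two).mpr hp2)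
  have h5 : p ^ v ∣ (i - j) + (j - i) := h4.dvd_of_dvd_mul_left h3
  exact (hp.pow_dvd_iff_le_factorization (by omega)).mp h5

theorem p_Rem : S_Rem := by
  intro a k ha hk hpr
  have ha0 : 0 < a := ha.pos
  have hne : (range k).Nonempty := ⟨0, mem_range.mpr (by omega)⟩
  have hex : ∀ p : ℕ, ∃ j ∈ range k, ∀ i ∈ range k,
      (a + 2 * i).factorization p ≤ (a + 2 * j).factorization p := fun p =>
    exists_max_image (range k) (fun i => (a + 2 * i).factorization p) hne
  choose f hf1 hf2 using hex
  set P := (range (2 * k + 1 + 1)).filter (fun p => p.Prime ∧ p ≠ 2) with hP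
  have hPc : P.card = pc (2 * k + 1) := rfl
  set I := P.image f with hI
  have hIc : I.card ≤ pc (2 * k + 1) := hPc ▸ card_image_le
  set T := range k \ I with hT
  set D := ∏ i ∈ T, (a + 2 * i) with hD
  have hDodd : Odd D := by
    rw [hD]
    refine Finset.prod_induction _ Odd (fun x y hx hy => hx.mul hy) odd_one ?_
    intro i _
    exact ha.add_even (even_two_mul i)
  have hD0 : D ≠ 0 := hDodd.pos.ne'
  have hDdvd : D ∣ od a k := prod_dvd_prod_of_subset _ _ _ sdiff_subset
  -- valuations
  have hfac : D ∣ (k - 1).factorial := by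
    refine (Nat.factorization_prime_le_iff_dvd hD0 (Nat.factorial_ne_zero _)).mp ?_
    intro p hp
    by_cases hpD : p ∣ D
    swap
    · rw [Nat.factorization_eq_zero_of_not_dvd hpD]
      exact Nat.zero_le _
    have hp2 : p ≠ 2 := by
      rintro rfl
      exact (Nat.not_even_iff_odd.mpr hDodd) (even_iff_two_dvd.mpr hpD)
    have hple := hpr p hp (hpD.trans hDdvd)
    have hpP : p ∈ P := mem_filter.mpr ⟨mem_range.mpr (by omega), hp, hp2⟩
    have hfI : f p ∈ I := mem_image_of_mem f hpP
    have hfk := mem_range.mp (hf1 p)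
    have h1 : D.factorization p = ∑ i ∈ T, (a + 2 * i).factorization p := by
      rw [hD, Nat.factorization_prod (fun i _ => by omega), Finsupp.finset_sum_apply]
    have h2 : T ⊆ (range k).erase (f p) := by
      intro i hi
      rw [hT, mem_sdiff] at hi
      rw [mem_erase]
      refine ⟨?_, hi.1⟩
      rintro rfl
      exact hi.2 hfI
    obtain ⟨m, hm⟩ : ∃ m, k = f p + 1 + m := ⟨k - (f p + 1), by omega⟩
    have h3 : (∏ i ∈ (range k).erase (f p), ((i - f p) + (f p - i))).factorization p =
        ∑ i ∈ (range k).erase (f p), ((i - f p) + (f p - i)).factorization p := by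
      rw [Nat.factorization_prod, Finsupp.finset_sum_apply]
      intro i hi
      have := ne_of_mem_erase hi
      omega
    have h4 : ∏ i ∈ (range k).erase (f p), ((i - f p) + (f p - i)) =
        (f p).factorial * m.factorial := by
      rw [← Rem_prod (f p) m, ← hm]
    have h5 : (f p).factorial * m.factorial ∣ (k - 1).factorial := by
      have e : k - 1 = f p + m := by omega
      rw [e]
      exact Nat.factorial_mul_factorial_dvd_factorial_add _ _
    calc D.factorization p = ∑ i ∈ T, (a + 2 * i).factorization p := h1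
      _ ≤ ∑ i ∈ (range k).erase (f p), (a + 2 * i).factorization p :=
          sum_le_sum_of_subset h2
      _ ≤ ∑ i ∈ (range k).erase (f p), ((i - f p) + (f p - i)).factorization p := by
          refine sum_le_sum ?_
          intro i hi
          exact Rem_val hp hp2 ha0 (ne_of_mem_erase hi) (hf2 p i (mem_of_mem_erase hi))
      _ = ((f p).factorial * m.factorial).factorization p := by rw [← h3, h4]
      _ ≤ ((k - 1).factorial).factorization p :=
          (Nat.factorization_le_iff_dvd (Nat.mul_ne_zero (Nat.factorial_ne_zero _)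
            (Nat.factorial_ne_zero _)) (Nat.factorial_ne_zero _)).mpr h5 p
  have hop : D ∣ op (k - 1).factorial := by
    have h1 : 2 ^ ((k - 1).factorial).factorization 2 * op (k - 1).factorial =
        (k - 1).factorial := Nat.ordProj_mul_ordCompl_eq_self _ 2
    have h2 : Nat.Coprime D (2 ^ ((k - 1).factorial).factorization 2) :=
      Nat.Coprime.pow_right _ (Nat.coprime_two_right.mpr hDodd)
    refine h2.dvd_of_dvd_mul_left ?_
    rw [h1]
    exact hfac
  have hop0 : 0 < op (k - 1).factorial := Nat.ordCompl_pos 2 (Nat.factorial_ne_zero _)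
  have hTc : k - pc (2 * k + 1) ≤ T.card := by
    have h6 : (range k).card - I.card ≤ T.card := le_card_sdiff I (range k)
    rw [card_range] at h6
    omega
  calc a ^ (k - pc (2 * k + 1)) ≤ a ^ T.card := Nat.pow_le_pow_right ha0 hTc
    _ = ∏ i ∈ T, a := (prod_const a).symm
    _ ≤ D := prod_le_prod' (fun i _ => by omega)
    _ ≤ op (k - 1).factorial := Nat.le_of_dvd hop0 hop

end SchH
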