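import Pool.Agent.Lib.SchH.Spec

/-!
`S_Rev` and `S_At3`: the polynomials `XP` are the reversed polynomials `PP`.
-/

namespace SchH

open Finset Polynomial

private theorem Rev_ev (m : ℕ) : (2 * m).factorial = 2 ^ m * m.factorial * dd m := by
  induction m with
  | zero => simp [dd]
  | succ m ih =>
    have h1 : dd (m + 1) = dd m * (2 * m + 1) := by
      unfold dd
      rw [prod_range_succ]
    rw [show 2 * (m + 1) = (2 * m + 1) + 1 by ring, Nat.factorial_succ, Nat.factorial_succ, ih, h1,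
      Nat.factorial_succ, pow_succ]
    ring

private theorem Rev_fac (δ m : ℕ) (hδ : δ ≤ 1) :
    (2 * m + δ).factorial = 2 ^ m * m.factorial * dd (m + δ) := by
  rcases Nat.le_one_iff_eq_zero_or_eq_one.mp hδ with rfl | rfl
  · exact Rev_ev m
  · have h1 : dd (m + 1) = dd m * (2 * m + 1) := by
      unfold dd
      rw [prod_range_succ]
    rw [Nat.factorial_succ, Rev_ev, h1]
    ring

private theorem Rev_nat (δ m k : ℕ) (hδ : δ ≤ 1) (hk : k ≤ m) :
    (2 * m + δ).factorial / ((2 * m + δ - 2 * k).factorial * k.factorial) =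
      2 ^ k * cf δ m (m - k) := by
  obtain ⟨i, rfl⟩ := Nat.exists_eq_add_of_le hk
  have h0 : k + i - k = i := by omega
  have h1 : 2 * (k + i) + δ - 2 * k = 2 * i + δ := by omega
  rw [h0, h1]
  apply Nat.div_eq_of_eq_mul_left
  · exact Nat.mul_pos (Nat.factorial_pos _) (Nat.factorial_pos _)
  rw [Rev_fac δ _ hδ, Rev_fac δ _ hδ]
  have h2 : cf δ (k + i) i * dd (i + δ) = (k + i).choose i * dd (k + i + δ) := by
    unfold cf dd
    rw [mul_assoc, mul_comm (∏ t ∈ Ico (i + δ) (k + i + δ), (2 * t + 1)),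
      prod_range_mul_prod_Ico _ (by omega)]
  have h3 : (k + i).choose i * i.factorial * k.factorial = (k + i).factorial := by
    have := Nat.add_choose_mul_factorial_mul_factorial k i
    rw [← this]
    ring
  calc 2 ^ (k + i) * (k + i).factorial * dd (k + i + δ)
      = 2 ^ k * 2 ^ i * ((k + i).choose i * i.factorial * k.factorial) * dd (k + i + δ) := by
        rw [h3, pow_add]
    _ = 2 ^ k * 2 ^ i * i.factorial * k.factorial * ((k + i).choose i * dd (k + i + δ)) := by ring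
    _ = _ := by rw [← h2]; ring

private theorem Rev_int (δ m k : ℕ) (hδ : δ ≤ 1) (hk : k ≤ m) :
    ((-1 : ℤ) ^ k * (((2 * m + δ).factorial / ((2 * m + δ - 2 * k).factorial * k.factorial) : ℕ) : ℤ))
      = (-1) ^ k * 2 ^ k * (cf δ m (m - k) : ℤ) := by
  rw [Rev_nat δ m k hδ hk]
  push_cast
  ring

private theorem Rev_half (δ m : ℕ) (hδ : δ ≤ 1) : (2 * m + δ) / 2 + 1 = m + 1 := by omega

theorem p_Rev : S_Rev := by
  intro δ m hδ
  unfold Orch.XP
  rw [Rev_half δ m hδ]
  refine sum_congr rfl (fun k hk => ?_)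
  rw [mem_range] at hk
  rw [Rev_int δ m k hδ (by omega)]
  push_cast
  rfl

theorem p_At3 : S_At3 := by
  intro m h
  unfold Orch.xe
  rw [Rev_half 1 m le_rfl]
  have h1 : ∑ i ∈ range (m + 1), ((-1 : ℤ) ^ (m - i) * (cf 1 m i : ℤ)) * 3 ^ i = 0 := by
    rw [← h]
    unfold PP
    rw [eval_finset_sum]
    refine sum_congr rfl (fun i _ => ?_)
    rw [eval_mul, eval_C, eval_pow, eval_X]
  have h2 : ∑ i ∈ range (m + 1), ((-1 : ℚ) ^ (m - i) * (cf 1 m i : ℚ)) * 3 ^ i = 0 := by
    exact_mod_cast congrArg (Int.cast : ℤ → ℚ) h1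
  rw [← sum_range_reflect] at h2
  have h3 : ∑ k ∈ range (m + 1),
      (((-1 : ℤ) ^ k * (((2 * m + 1).factorial /
        ((2 * m + 1 - 2 * k).factorial * k.factorial) : ℕ) : ℤ) : ℤ) : ℚ) * (1 / 6) ^ k =
      (1 / 3 ^ m) * ∑ j ∈ range (m + 1), ((-1 : ℚ) ^ (m - (m + 1 - 1 - j)) *
        (cf 1 m (m + 1 - 1 - j) : ℚ)) * 3 ^ (m + 1 - 1 - j) := by
    rw [mul_sum]
    refine sum_congr rfl (fun k hk => ?_)
    rw [mem_range] at hk
    rw [Rev_int 1 m k le_rfl (by omega)]
    obtain ⟨i, hi⟩ := Nat.exists_eq_add_of_le (show k ≤ m by omega)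
    subst hi
    have e1 : k + i + 1 - 1 - k = i := by omega
    have e2 : k + i - i = k := by omega
    have e3 : k + i - k = i := by omega
    rw [e1, e2, e3, pow_add]
    push_cast
    have h6 : (1 / 6 : ℚ) ^ k = (1 / 2) ^ k * (1 / 3) ^ k := by
      rw [← mul_pow]
      norm_num
    rw [h6, one_div_pow, one_div_pow]
    field_simp
  rw [h3, h2, mul_zero]

end SchH
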