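import Pool.Agent.Lib.SchH.Spec

/-!
The absolute values of the roots of `PP δ m` in an algebraic closure of `ℚ_p`.
-/

namespace SchH

open Finset Polynomial

private theorem Root_nat (p : ℕ) [Fact p.Prime] (n : ℕ) (hn : n ≠ 0) :
    ‖(n : PadicAlgCl p)‖ = ((p : ℝ)⁻¹) ^ padicValNat p n := by
  have h1 : ((n : ℚ_[p]) : PadicAlgCl p) = (n : PadicAlgCl p) := by
    exact map_natCast (algebraMap ℚ_[p] (PadicAlgCl p)) n
  rw [← h1, PadicAlgCl.norm_extends, Padic.norm_eq_zpow_neg_valuation (by exact_mod_cast hn),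
    Padic.valuation_natCast, zpow_neg, zpow_natCast, inv_pow]

private theorem Root_sum (p : ℕ) [Fact p.Prime] (s : Finset ℕ) (f : ℕ → PadicAlgCl p) (C : ℝ)
    (hC : 0 < C) (h : ∀ i ∈ s, ‖f i‖ < C) : ‖∑ i ∈ s, f i‖ < C := by
  classical
  induction s using Finset.induction_on with
  | empty => simpa using hC
  | insert a s ha ih =>
    rw [sum_insert ha]
    refine (PadicAlgCl.isNonarchimedean p _ _).trans_lt (max_lt (h a (mem_insert_self a s)) ?_)
    exact ih fun i hi => h i (mem_insert_of_mem hi)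

theorem c_Root (hPP : S_PPm) (hCf : S_CfDd) (hV : S_ValK) : S_Root := by
  intro p hp δ m k α hδ hk hpk hroot
  by_contra hcon
  push Not at hcon
  have hp1 : (1 : ℝ) < p := by exact_mod_cast hp.out.one_lt
  have hp0 : (0 : ℝ) < (p : ℝ)⁻¹ := by positivity
  have hpi : (p : ℝ)⁻¹ < 1 := inv_lt_one_of_one_lt₀ hp1
  obtain ⟨hmon, hdeg, hcoe⟩ := hPP δ m
  -- nonvanishing
  have hdd : ∀ i, dd i ≠ 0 := fun i => Finset.prod_ne_zero_iff.2 fun t _ => by omega
  have hcf : ∀ i ≤ m, cf δ m i ≠ 0 := by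
    intro i hi
    exact Nat.mul_ne_zero (Nat.choose_pos hi).ne' (Finset.prod_ne_zero_iff.2 fun t _ => by omega)
  have hval : ∀ i ≤ m, padicValNat p (cf δ m 0) ≤ padicValNat p (cf δ m i) +
      padicValNat p (dd (i + δ)) := by
    intro i hi
    have e1 := hCf δ m i hi
    have e0 := hCf δ m 0 (Nat.zero_le _)
    have hd1 : dd (0 + δ) = 1 := by
      rcases Nat.le_one_iff_eq_zero_or_eq_one.1 hδ with rfl | rfl
      · simp [dd]
      · simp [dd]
    rw [hd1, mul_one, Nat.choose_zero_right, one_mul] at e0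
    rw [e0]
    have e2 := congrArg (padicValNat p) e1
    rw [padicValNat.mul (hcf i hi) (hdd _), padicValNat.mul (Nat.choose_pos hi).ne' (hdd _)] at e2
    omega
  -- norms of the terms
  set T : ℕ → PadicAlgCl p := fun i => (((PP δ m).coeff i : ℤ) : PadicAlgCl p) * α ^ i with hT
  have hsum : ∑ i ∈ range (m + 1), T i = 0 := by
    rw [aeval_eq_sum_range, hdeg] at hroot
    rw [← hroot]
    refine sum_congr rfl fun i _ => ?_
    rw [hT, zsmul_eq_mul]
  have hcn : ∀ i ≤ m, ‖(((PP δ m).coeff i : ℤ) : PadicAlgCl p)‖ =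
      ((p : ℝ)⁻¹) ^ padicValNat p (cf δ m i) := by
    intro i hi
    rw [hcoe i hi]
    push_cast
    rw [norm_mul, norm_pow, norm_neg, norm_one, one_pow, one_mul, Root_nat p _ (hcf i hi)]
  have hlt : ∀ i, 1 ≤ i → i ≤ m → ‖T i‖ < ‖T 0‖ := by
    intro i h1 h2
    have hk0 : k ≠ 0 := by omega
    refine lt_of_pow_lt_pow_left₀ k (norm_nonneg _) ?_
    rw [hT]
    simp only [pow_zero, mul_one]
    rw [norm_mul, norm_pow, hcn i h2, hcn 0 (Nat.zero_le _), mul_pow, ← pow_mul, ← pow_mul,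
      ← pow_mul, mul_comm i k, pow_mul ‖α‖ k i]
    have hb := hval i h2
    have hv := hV p k δ i hp.out hδ hk hpk h1
    calc ((p : ℝ)⁻¹) ^ (padicValNat p (cf δ m i) * k) * (‖α‖ ^ k) ^ i
        ≤ ((p : ℝ)⁻¹) ^ (padicValNat p (cf δ m i) * k) * ((p : ℝ)⁻¹) ^ i := by
          gcongr
      _ = ((p : ℝ)⁻¹) ^ (padicValNat p (cf δ m i) * k + i) := by rw [pow_add]
      _ < ((p : ℝ)⁻¹) ^ (padicValNat p (cf δ m 0) * k) := by
          apply pow_lt_pow_right_of_lt_one₀ hp0 hpi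
          nlinarith
  -- the sum of the other terms
  have hrest : ‖∑ i ∈ Ico 1 (m + 1), T i‖ < ‖T 0‖ := by
    have h0 : 0 < ‖T 0‖ := by
      rw [hT]
      simp only [pow_zero, mul_one]
      rw [hcn 0 (Nat.zero_le _)]
      positivity
    refine Root_sum p _ _ _ h0 ?_
    intro i hi
    rw [mem_Ico] at hi
    exact hlt i hi.1 (by omega)
  have hsplit : ∑ i ∈ range (m + 1), T i = T 0 + ∑ i ∈ Ico 1 (m + 1), T i := by
    rw [range_eq_Ico, sum_eq_sum_Ico_succ_bot (by omega)]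
  rw [hsplit] at hsum
  have : T 0 = -∑ i ∈ Ico 1 (m + 1), T i := by linear_combination hsum
  rw [this, norm_neg] at hrest
  exact lt_irrefl _ hrest

end SchH
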