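import Pool.Agent.Lib.SchH.Spec

/-!
`S_Sch`: Schur's theorem on consecutive odd numbers.
-/

namespace SchH

open Finset

theorem c_Sch (hRem : S_Rem) (hNoMul : S_NoMul) (hProdB : S_ProdB) (hBigA : S_BigA) (hBigB : S_BigB)
    (hBigC : S_BigC) (hFinA : S_FinA) (hFinB : S_FinB) (hThree : S_Three) : S_Sch := by
  intro k a hk ha h2k
  by_contra hcon
  push Not at hcon
  have hsmall : ∀ p : ℕ, p.Prime → p ∣ od a k → p ≤ 2 * k + 1 ∧ p ≠ 2 := by
    intro p hp hd
    unfold od at hd
    rw [hp.prime.dvd_finset_prod_iff] at hd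
    obtain ⟨i, hi, hd⟩ := hd
    rw [mem_range] at hi
    have h1 : p < 2 * k + 3 := by
      by_contra h
      exact hcon p hp (by omega) i hi hd
    have h2 : p ≠ 2 := by
      rintro rfl
      obtain ⟨r, hr⟩ := ha
      omega
    have h3 : p ≠ 2 * k + 2 := by
      intro h
      rcases hp.eq_two_or_odd with h4 | h4
      · exact h2 h4
      · omega
    exact ⟨by omega, h2⟩
  have hr := hRem a k ha (by omega) (fun p hp hd => (hsmall p hp hd).1)
  rcases Nat.lt_or_ge k 4 with h4 | h4
  · obtain rfl : k = 3 := by omega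
    obtain ⟨p, hp, h9, i, hi, hd⟩ := hThree a ha (by omega)
    exact hcon p hp (by omega) i hi hd
  rcases Nat.lt_or_ge k 143 with h143 | h143
  · rcases hFinB k a h4 (by omega) ha h2k with h | ⟨i, hi, hp⟩
    · omega
    · exact hcon _ hp (by omega) i hi dvd_rfl
  rcases Nat.lt_or_ge k 5000 with h5 | h5
  · have h1 := hFinA k h143 h5
    have h2 : (2 * k + 3) ^ (k - pc (2 * k + 1)) ≤ a ^ (k - pc (2 * k + 1)) :=
      Nat.pow_le_pow_left h2k _
    omega
  rcases Nat.lt_or_ge (16 * a) (k ^ 2) with h6 | h6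
  swap
  · have h1 := hBigA k a (by omega) h6
    omega
  have hle : a ^ k ≤ od a k := by
    unfold od
    calc a ^ k = ∏ i ∈ range k, a := by rw [prod_const, card_range]
      _ ≤ ∏ i ∈ range k, (a + 2 * i) := prod_le_prod' (fun i _ => Nat.le_add_right _ _)
  rcases Nat.lt_or_ge (4 * k) a with h7 | h7
  · have h1 := hProdB a k (2 * k + 1) ha (by omega) (by omega) (fun p hp hd => (hsmall p hp hd).1)
    have h2 := hBigC k a h5 h7 h6.le
    omega
  · have h1 := hProdB a k ((a + 2 * k - 2) / 3) ha (by omega) (by omega) (fun p hp hd => ?_)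
    · have h2 := hBigB k a h5 h2k h7
      omega
    · by_contra h
      have h3 := hsmall p hp hd
      exact hNoMul p a k hp h3.2 ha (by omega) (by omega) (by omega) hd

end SchH
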