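import Pool.Agent.Lib.SchH.Spec

/-!
`S_Three`: three consecutive odd numbers `≥ 9` are not all composed of `3, 5, 7`.
-/

namespace SchH

private theorem Three_pow (n p : ℕ) (hn : n ≠ 0) (h : ∀ q : ℕ, q.Prime → q ∣ n → q = p) :
    ∃ e, n = p ^ e :=
  ⟨_, Nat.eq_prime_pow_of_unique_prime_dvd hn (fun {d} hd hd' => h d hd hd')⟩

private theorem Three_mod (z : ℕ) :
    7 ^ z % 25 = 1 ∨ 7 ^ z % 25 = 7 ∨ 7 ^ z % 25 = 24 ∨ 7 ^ z % 25 = 18 := by
  induction z with
  | zero => left; norm_num
  | succ n ih => rw [pow_succ]; omega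

private theorem Three_aux (m n : ℕ) (hm : ∃ e, m = 5 ^ e) (hn : ∃ e, n = 7 ^ e) (h9 : 9 ≤ m)
    (h : m = n + 2 ∨ m + 2 = n ∨ m = n + 4 ∨ m + 4 = n) : False := by
  obtain ⟨y, hy⟩ := hm
  obtain ⟨z, hz⟩ := hn
  have h1 : 25 ∣ m := by
    rcases y with _ | _ | y
    · rw [hy] at h9; norm_num at h9
    · rw [hy] at h9; norm_num at h9
    · rw [hy]; exact ⟨5 ^ y, by ring⟩
  have h2 := Three_mod z
  rw [← hz] at h2
  omega

theorem p_Three : S_Three := by
  intro a ha h9
  by_contra hcon
  push Not at hcon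
  have H : ∀ i < 3, ∀ p : ℕ, p.Prime → p ∣ a + 2 * i → p = 3 ∨ p = 5 ∨ p = 7 := by
    intro i hi p hp hd
    have h1 : p < 9 := by
      by_contra h
      exact hcon p hp (by omega) i hi hd
    have h2 : p ≠ 2 := by
      rintro rfl
      obtain ⟨k, hk⟩ := ha
      omega
    have h3 := hp.two_le
    interval_cases p
    · exact absurd rfl h2
    · left; rfl
    · exact absurd hp (by norm_num)
    · right; left; rfl
    · exact absurd hp (by norm_num)
    · right; right; rfl
    · exact absurd hp (by norm_num)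
  have K : ∀ i < 3, 3 ∣ a + 2 * i ∨ 5 ∣ a + 2 * i ∨ 7 ∣ a + 2 * i := by
    intro i hi
    have h1 : (a + 2 * i).minFac.Prime := Nat.minFac_prime (by omega)
    have h2 : (a + 2 * i).minFac ∣ a + 2 * i := Nat.minFac_dvd _
    rcases H i hi _ h1 h2 with h | h | h
    · left; rw [h] at h2; exact h2
    · right; left; rw [h] at h2; exact h2
    · right; right; rw [h] at h2; exact h2
  have F : ∀ i j k : ℕ, i < 3 → j < 3 → k < 3 → i ≠ j → i ≠ k → j ≠ k → 5 ∣ a + 2 * i →
      7 ∣ a + 2 * j → 3 ∣ a + 2 * k → False := by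
    intro i j k hi hj hk hij hik hjk h5 h7 h3
    refine Three_aux (a + 2 * i) (a + 2 * j) ?_ ?_ (by omega) (by omega)
    · refine Three_pow _ _ (by omega) (fun q hq hd => ?_)
      rcases H i hi q hq hd with h | h | h
      · subst h; omega
      · exact h
      · subst h; omega
    · refine Three_pow _ _ (by omega) (fun q hq hd => ?_)
      rcases H j hj q hq hd with h | h | h
      · subst h; omega
      · subst h; omega
      · exact h
  have h0 := K 0 (by norm_num)
  have h1 := K 1 (by norm_num)
  have h2 := K 2 (by norm_num)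
  rcases h0 with h0 | h0 | h0 <;> rcases h1 with h1 | h1 | h1 <;> rcases h2 with h2 | h2 | h2
  all_goals first
    | omega
    | exact F 0 1 2 (by norm_num) (by norm_num) (by norm_num) (by norm_num) (by norm_num)
        (by norm_num) h0 h1 h2
    | exact F 0 2 1 (by norm_num) (by norm_num) (by norm_num) (by norm_num) (by norm_num)
        (by norm_num) h0 h2 h1
    | exact F 1 0 2 (by norm_num) (by norm_num) (by norm_num) (by norm_num) (by norm_num)
        (by norm_num) h1 h0 h2
    | exact F 1 2 0 (by norm_num) (by norm_num) (by norm_num) (by norm_num) (by norm_num)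
        (by norm_num) h1 h2 h0
    | exact F 2 0 1 (by norm_num) (by norm_num) (by norm_num) (by norm_num) (by norm_num)
        (by norm_num) h2 h0 h1
    | exact F 2 1 0 (by norm_num) (by norm_num) (by norm_num) (by norm_num) (by norm_num)
        (by norm_num) h2 h1 h0

end SchH
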