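import Pool.Agent.Lib.SchH.Spec

/-!
`S_Two`: two consecutive odd numbers `≥ 7` other than `25, 27` have a prime divisor `≥ 7`.
-/

namespace SchH

private theorem Two_per (b m o x : ℕ) (h : b ^ o % m = 1 % m) : b ^ x % m = b ^ (x % o) % m := by
  have h1 : (b ^ o) ^ (x / o) ≡ 1 ^ (x / o) [MOD m] := Nat.ModEq.pow _ h
  have h2 : b ^ x = (b ^ o) ^ (x / o) * b ^ (x % o) := by
    rw [← pow_mul, ← pow_add, Nat.div_add_mod]
  have h3 : (b ^ o) ^ (x / o) * b ^ (x % o) ≡ 1 ^ (x / o) * b ^ (x % o) [MOD m] :=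
    Nat.ModEq.mul_right _ h1
  rw [one_pow, one_mul, ← h2] at h3
  exact h3

private theorem Two_A (x y : ℕ) (hy : 3 ≤ y) (h : 3 ^ x = 5 ^ y + 2) : False := by
  have key : ∀ r < 400, 3 ^ r % 125 = 2 → ∀ s < 25, 3 ^ r % 401 ≠ (5 ^ s % 401 + 2) % 401 := by
    decide +kernel
  have h1 : 5 ^ y = 125 * 5 ^ (y - 3) := by
    obtain ⟨z, rfl⟩ := Nat.exists_eq_add_of_le hy
    rw [Nat.add_sub_cancel_left, pow_add]
    norm_num
  have h2 : 3 ^ x % 125 = 2 := by omega
  have h3 := Two_per 3 125 400 x (by decide +kernel)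
  have h4 := Two_per 3 401 400 x (by decide +kernel)
  have h5 := Two_per 5 401 25 y (by norm_num)
  refine key (x % 400) (Nat.mod_lt _ (by norm_num)) (by rw [← h3]; exact h2) (y % 25)
    (Nat.mod_lt _ (by norm_num)) ?_
  rw [← h4, ← h5, h]
  omega

private theorem Two_B (x y : ℕ) (hx : 2 ≤ x) (h : 5 ^ y = 3 ^ x + 2) : False := by
  have key : ∀ r < 6, ∀ s < 6, 5 ^ s % 9 = 2 → 5 ^ s % 7 = (3 ^ r % 7 + 2) % 7 →
      5 ^ s % 8 ≠ (3 ^ r % 8 + 2) % 8 := by
    decide +kernel
  have h1 : 3 ^ x = 9 * 3 ^ (x - 2) := by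
    obtain ⟨z, rfl⟩ := Nat.exists_eq_add_of_le hx
    rw [Nat.add_sub_cancel_left, pow_add]
    norm_num
  have h2 : 5 ^ y % 9 = 2 := by omega
  have h3 := Two_per 5 9 6 y (by norm_num)
  have h4 := Two_per 5 7 6 y (by norm_num)
  have h5 := Two_per 5 8 6 y (by norm_num)
  have h6 := Two_per 3 7 6 x (by norm_num)
  have h7 := Two_per 3 8 6 x (by norm_num)
  refine key (x % 6) (Nat.mod_lt _ (by norm_num)) (y % 6) (Nat.mod_lt _ (by norm_num))
    (by rw [← h3]; exact h2) ?_ ?_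
  · rw [← h4, ← h6, h]
    omega
  · rw [← h5, ← h7, h]
    omega

theorem p_Two : S_Two := by
  intro a ha h7 h25
  by_contra hcon
  push Not at hcon
  have H : ∀ i < 2, ∀ p : ℕ, p.Prime → p ∣ a + 2 * i → p = 3 ∨ p = 5 := by
    intro i hi p hp hd
    have h1 : p < 7 := by
      by_contra h
      exact hcon p hp (by omega) i hi hd
    have h2 : p ≠ 2 := by
      rintro rfl
      obtain ⟨k, hk⟩ := ha
      omega
    have h3 := hp.two_le
    interval_cases p
    · exact absurd rfl h2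
    · left; rfl
    · exact absurd hp (by norm_num)
    · right; rfl
    · exact absurd hp (by norm_num)
  have K : ∀ i < 2, 3 ∣ a + 2 * i ∨ 5 ∣ a + 2 * i := by
    intro i hi
    have h1 : (a + 2 * i).minFac.Prime := Nat.minFac_prime (by omega)
    have h2 : (a + 2 * i).minFac ∣ a + 2 * i := Nat.minFac_dvd _
    rcases H i hi _ h1 h2 with h | h
    · left; rw [h] at h2; exact h2
    · right; rw [h] at h2; exact h2
  have F : ∀ i j : ℕ, i < 2 → j < 2 → i ≠ j → 3 ∣ a + 2 * i → 5 ∣ a + 2 * j →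
      (∃ x, a + 2 * i = 3 ^ x) ∧ ∃ y, a + 2 * j = 5 ^ y := by
    intro i j hi hj hij h3 h5
    constructor
    · refine ⟨_, Nat.eq_prime_pow_of_unique_prime_dvd (by omega) (fun {d} hd hd' => ?_)⟩
      rcases H i hi d hd hd' with h | h
      · exact h
      · subst h; omega
    · refine ⟨_, Nat.eq_prime_pow_of_unique_prime_dvd (by omega) (fun {d} hd hd' => ?_)⟩
      rcases H j hj d hd hd' with h | h
      · subst h; omega
      · exact h
  have h0 := K 0 (by norm_num)
  have h1 := K 1 (by norm_num)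
  rcases h0 with h0 | h0 <;> rcases h1 with h1 | h1
  · omega
  · obtain ⟨⟨x, hx⟩, y, hy⟩ := F 0 1 (by norm_num) (by norm_num) (by norm_num) h0 h1
    refine Two_B x y ?_ (by omega)
    rcases x with _ | _ | x
    · norm_num at hx; omega
    · norm_num at hx; omega
    · omega
  · obtain ⟨⟨x, hx⟩, y, hy⟩ := F 1 0 (by norm_num) (by norm_num) (by norm_num) h1 h0
    refine Two_A x y ?_ (by omega)
    rcases y with _ | _ | _ | y
    · norm_num at hy; omega
    · norm_num at hy; omega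
    · norm_num at hy; omega
    · omega
  · omega

end SchH
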