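import Pool.Agent.Lib.SchH.Spec

/-!
# SchH/Val: valuations of double factorials
-/

set_option autoImplicit false

namespace SchH

open Finset

private theorem Val_fac (a : ℕ) : (2 * a).factorial = 2 ^ a * a.factorial * dd a := by
  induction a with
  | zero => rfl
  | succ a ih =>
    have h1 : 2 * (a + 1) = 2 * a + 1 + 1 := by ring
    have h2 : dd (a + 1) = dd a * (2 * a + 1) := by
      unfold dd
      rw [Finset.prod_range_succ]
    rw [h1, Nat.factorial_succ, Nat.factorial_succ, ih, h2, Nat.factorial_succ, pow_succ]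
    ring

private theorem Val_pos (a : ℕ) : dd a ≠ 0 := by
  unfold dd
  rw [Finset.prod_ne_zero_iff]
  intro i _
  omega

theorem p_Val : S_Val := by
  intro p a hp h2 ha
  haveI : Fact p.Prime := ⟨hp⟩
  have h1 : padicValNat p (2 * a).factorial = padicValNat p a.factorial + padicValNat p (dd a) := by
    rw [Val_fac, padicValNat.mul (mul_ne_zero (by positivity) (Nat.factorial_ne_zero a))
      (Val_pos a), padicValNat.mul (by positivity) (Nat.factorial_ne_zero a)]
    have h3 : padicValNat p (2 ^ a) = 0 := by
      apply padicValNat.eq_zero_of_not_dvd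
      intro h
      exact h2 ((Nat.prime_dvd_prime_iff_eq hp Nat.prime_two).mp (hp.dvd_of_dvd_pow h))
    rw [h3, zero_add]
  have h4 := sub_one_mul_padicValNat_factorial (p := p) (2 * a)
  have h5 := sub_one_mul_padicValNat_factorial (p := p) a
  rw [h1, mul_add, h5] at h4
  have h6 : (p.digits a).sum ≤ a := Nat.digit_sum_le p a
  have h7 : (p.digits (2 * a)).sum ≤ 2 * a := Nat.digit_sum_le p (2 * a)
  have h8 : 1 ≤ (p.digits (2 * a)).sum := by
    by_contra h
    have h9 : (p.digits (2 * a)).sum = 0 := by omega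
    have h10 : ∀ x ∈ p.digits (2 * a), x = 0 := List.sum_eq_zero_iff.mp h9
    have h11 : p.digits (2 * a) ≠ [] := Nat.digits_ne_nil_iff_ne_zero.mpr (by omega)
    exact Nat.getLast_digit_ne_zero p (by omega : 2 * a ≠ 0) (h10 _ (List.getLast_mem h11))
  omega

theorem c_ValK (h : S_Val) : S_ValK := by
  intro p k δ i hp hδ hk hpk hi
  have h1 := h p (i + δ) hp (by omega) (by omega)
  have h2 : (2 * k + 2 * δ) * padicValNat p (dd (i + δ)) ≤ 2 * (i + δ) - 1 :=
    (Nat.mul_le_mul_right _ (by omega)).trans h1
  generalize padicValNat p (dd (i + δ)) = v at h2 ⊢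
  rcases Nat.eq_zero_or_pos v with rfl | hv
  · omega
  · interval_cases δ
    · have h3 : (2 * k + 2 * 0) * v = 2 * (k * v) := by ring
      rw [h3] at h2
      omega
    · have h3 : (2 * k + 2 * 1) * v = 2 * (k * v) + 2 * v := by ring
      rw [h3] at h2
      omega

end SchH
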