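import Pool.Agent.Lib.SchH.BigA
import Pool.Agent.Lib.SchH.BigB
import Pool.Agent.Lib.SchH.BigC
import Pool.Agent.Lib.SchH.E27
import Pool.Agent.Lib.SchH.Exp
import Pool.Agent.Lib.SchH.FinA
import Pool.Agent.Lib.SchH.FinB
import Pool.Agent.Lib.SchH.Irr
import Pool.Agent.Lib.SchH.IrrRev
import Pool.Agent.Lib.SchH.Lin
import Pool.Agent.Lib.SchH.NoFac
import Pool.Agent.Lib.SchH.NoMul
import Pool.Agent.Lib.SchH.OddFac
import Pool.Agent.Lib.SchH.PPm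
import Pool.Agent.Lib.SchH.PcHalf
import Pool.Agent.Lib.SchH.PcThird
import Pool.Agent.Lib.SchH.ProdB
import Pool.Agent.Lib.SchH.Rem
import Pool.Agent.Lib.SchH.Rev
import Pool.Agent.Lib.SchH.Root
import Pool.Agent.Lib.SchH.Sch
import Pool.Agent.Lib.SchH.Three
import Pool.Agent.Lib.SchH.Two
import Pool.Agent.Lib.SchH.Val

/-!
Schur's theorems: `S_Sch` (prime divisors of consecutive odd numbers) and the irreducibility of the
polynomials `X_j`.
-/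

namespace SchH

theorem p_Sch : S_Sch :=
  c_Sch p_Rem p_NoMul (c_ProdB p_Exp) (c_BigA p_OddFac p_PcHalf) (c_BigB p_OddFac p_PcThird)
    (c_BigC p_OddFac p_PcThird) p_FinA p_FinB p_Three

theorem p_Root : S_Root := c_Root p_PPm p_CfDd (c_ValK p_Val)

theorem p_NoFac : S_NoFac := c_NoFac p_Root p_PPm

theorem p_Lin : S_Lin := c_Lin p_Root p_PPm p_CfDd p_Val

theorem c_IrrAll (hX3 : ∀ j, j ≠ 3 → Orch.xe (1 / 6 : ℚ) j ≠ 0) : S_Irr :=
  c_Irr p_Sch p_Two p_NoFac p_PPm p_Lin p_At3 p_E27 hX3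

/-- the polynomials `X_j` are irreducible over `ℚ` -/
theorem c_Main (hX3 : ∀ j, j ≠ 3 → Orch.xe (1 / 6 : ℚ) j ≠ 0) : S_Main := by
  intro j hj
  have h1 : j = 2 * (j / 2) + j % 2 := (Nat.div_add_mod j 2).symm
  have h2 : j % 2 ≤ 1 := by omega
  have h3 : 1 ≤ j / 2 := by omega
  rw [h1]
  exact c_IrrRev p_Rev p_PPm (j % 2) (j / 2) h2 h3 (c_IrrAll hX3 (j % 2) (j / 2) h2 h3)

end SchH
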