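import Pool.Agent.Lib.SchH.Spec

/-!
# SchH: the statement `S_BigA`
-/

namespace SchH

open Finset Polynomial

private theorem BigA_pow (n : ℕ) (hn : 40 ≤ n) : (24 : ℝ) * n < (5 / 4 : ℝ) ^ n := by
  induction n, hn using Nat.le_induction with
  | base => norm_num
  | succ n hn ih =>
    rw [pow_succ]
    have h : (40 : ℝ) ≤ n := by exact_mod_cast hn
    push_cast
    nlinarith

private theorem BigA_r1 {x y : ℝ} (hx : 1999 ≤ x) (h : (x + 1) ^ 2 ≤ 16 * y) :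
    (x / 4) ^ 2 ≤ y ∧ 1 ≤ y := by
  constructor <;> nlinarith

private theorem BigA_r2 {x e p : ℝ} (hx : 1999 ≤ x) (he : e < 3)
    (h6 : x / 4 * p ≤ 2 * e * x ^ 2) (h7 : 24 * x < p) : False := by
  have h8 : x / 4 * (24 * x) < x / 4 * p := mul_lt_mul_of_pos_left h7 (by linarith)
  have h9 : 0 < x ^ 2 := by positivity
  nlinarith

theorem c_BigA (hF : S_OddFac) (hP : S_PcHalf) : S_BigA := by
  intro k a hk ha
  obtain ⟨n, rfl⟩ : ∃ n, k = n + 1 := ⟨k - 1, by omega⟩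
  have hn : 1999 ≤ n := by omega
  rw [Nat.add_sub_cancel]
  have hpc := hP (n + 1) (by omega)
  obtain ⟨N, hN⟩ : ∃ N, N = n + 1 - pc (2 * (n + 1) + 1) := ⟨_, rfl⟩
  rw [← hN]
  have hN2 : n + 1 ≤ 2 * N := by omega
  have hnR : (1999 : ℝ) ≤ n := by exact_mod_cast hn
  have hA0 : ((n : ℝ) + 1) ^ 2 ≤ 16 * (a : ℝ) := by exact_mod_cast ha
  obtain ⟨hA, hA1⟩ := BigA_r1 hnR hA0
  by_contra hcon
  rw [not_lt] at hcon
  have h0 : (a : ℝ) ^ N ≤ (op n.factorial : ℝ) := by exact_mod_cast hcon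
  have h3 := hF n (by omega)
  have hn0 : 40 ≤ n := by omega
  generalize (op n.factorial : ℝ) = P at h0 h3
  clear hcon hpc hN hk ha hn hF hP
  have hP0 : 0 ≤ P := le_trans (by positivity) h0
  have h1 : (a : ℝ) ^ (n + 1) ≤ P ^ 2 := by
    calc (a : ℝ) ^ (n + 1) ≤ (a : ℝ) ^ (2 * N) := pow_le_pow_right₀ hA1 hN2
      _ = ((a : ℝ) ^ N) ^ 2 := by rw [← pow_mul, mul_comm]
      _ ≤ _ := pow_le_pow_left₀ (by positivity) h0 2
  have h2 : ((n : ℝ) / 4) ^ (n + 1) ≤ P := by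
    refine le_of_sq_le_sq ?_ hP0
    calc (((n : ℝ) / 4) ^ (n + 1)) ^ 2 = (((n : ℝ) / 4) ^ 2) ^ (n + 1) := by
          rw [← pow_mul, ← pow_mul, mul_comm]
      _ ≤ (a : ℝ) ^ (n + 1) := pow_le_pow_left₀ (by positivity) hA _
      _ ≤ _ := h1
  have he1 : Real.exp 1 < 3 := lt_trans Real.exp_one_lt_d9 (by norm_num)
  have he2 : 5 / 2 < Real.exp 1 := lt_trans (by norm_num) Real.exp_one_gt_d9
  have hn1 : (0 : ℝ) < n := by linarith
  have hnn : (0 : ℝ) < (n : ℝ) ^ n := pow_pos hn1 n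
  have h4 : ((n : ℝ) / 4) ^ (n + 1) * (2 * Real.exp 1) ^ n =
      (n : ℝ) ^ n * ((n : ℝ) / 4 * (Real.exp 1 / 2) ^ n) := by
    rw [pow_succ, mul_right_comm, ← mul_pow, show (n : ℝ) / 4 * (2 * Real.exp 1) =
      n * (Real.exp 1 / 2) by ring, mul_pow]
    ring
  have h5 : (n : ℝ) ^ n * ((n : ℝ) / 4 * (Real.exp 1 / 2) ^ n) ≤
      (n : ℝ) ^ n * (2 * Real.exp 1 * (n : ℝ) ^ 2) := by
    rw [← h4]
    calc ((n : ℝ) / 4) ^ (n + 1) * (2 * Real.exp 1) ^ n ≤ P * (2 * Real.exp 1) ^ n :=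
        mul_le_mul_of_nonneg_right h2 (by positivity)
      _ ≤ _ := h3
      _ = _ := by ring
  have h6 := le_of_mul_le_mul_left h5 hnn
  have h7 : (24 : ℝ) * n < (Real.exp 1 / 2) ^ n :=
    lt_of_lt_of_le (BigA_pow n hn0) (pow_le_pow_left₀ (by norm_num) (by linarith) n)
  exact BigA_r2 hnR he1 h6 h7

end SchH
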