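import Pool.Agent.Lib.SchH.Spec

/-!
`S_PPm`, `S_CfDd`: basic facts on the polynomials `PP δ m`.
-/

namespace SchH

open Finset Polynomial

private theorem PPm_coeff (δ m i : ℕ) : (PP δ m).coeff i =
    if i ≤ m then (-1) ^ (m - i) * (cf δ m i : ℤ) else 0 := by
  unfold PP
  rw [finset_sum_coeff]
  simp only [coeff_C_mul, coeff_X_pow, mul_ite, mul_one, mul_zero]
  rw [Finset.sum_ite_eq]
  simp only [mem_range, Nat.lt_succ_iff]

private theorem PPm_cf (δ m : ℕ) : cf δ m m = 1 := by
  simp [cf]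

theorem p_PPm : S_PPm := by
  intro δ m
  have h1 : (PP δ m).coeff m = 1 := by
    rw [PPm_coeff, if_pos le_rfl, PPm_cf, Nat.sub_self]
    norm_num
  have h2 : (PP δ m).natDegree = m := by
    apply natDegree_eq_of_le_of_coeff_ne_zero
    · rw [natDegree_le_iff_coeff_eq_zero]
      intro N hN
      rw [PPm_coeff, if_neg (by omega)]
    · rw [h1]
      exact one_ne_zero
  refine ⟨?_, h2, ?_⟩
  · rw [Monic, leadingCoeff, h2, h1]
  · intro i hi
    rw [PPm_coeff, if_pos hi]

theorem p_CfDd : S_CfDd := by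
  intro δ m i hi
  unfold cf dd
  rw [mul_assoc, mul_comm (∏ t ∈ Ico (i + δ) (m + δ), (2 * t + 1)),
    prod_range_mul_prod_Ico _ (by omega)]

end SchH
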