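import Pool.Agent.Lib.Orch.Alg

/-!
Schur's theorems: prime divisors of products of consecutive odd numbers, and the irreducibility of
the polynomials `X_j` (reversed Hermite polynomials) over `ℚ`.

Every statement `S_Name` below is one task: prove `theorem p_Name : S_Name` (or, where the docstring
names other statements, `theorem c_Name (h : S_Other) ... : S_Name`) in `Pool/Agent/Lib/SchH/Name.lean`.
-/

namespace SchH

open Finset Polynomial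

/-! ### 1. Prime divisors of products of consecutive odd numbers -/

/-- product of the `k` consecutive numbers `a, a + 2, …, a + 2 (k - 1)` -/
def od (a k : ℕ) : ℕ := ∏ i ∈ range k, (a + 2 * i)

/-- the odd part of `n` -/
def op (n : ℕ) : ℕ := n / 2 ^ n.factorization 2

/-- the number of odd primes `≤ N` -/
def pc (N : ℕ) : ℕ := ((range (N + 1)).filter (fun p => p.Prime ∧ p ≠ 2)).card

/-- Removal bound. Proof: for every odd prime `p ≤ 2 k + 1` choose `i_p < k` with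
`v_p (a + 2 i_p)` maximal; let `I` be the set of the `i_p`, `|I| ≤ pc (2 k + 1)`. For `i < k`, `i ≠ i_p`,
`v_p (a + 2 i) ≤ v_p (2 (i - i_p)) = v_p |i - i_p|` (both numbers `a + 2 i`, `a + 2 i_p` are divisible by
the `p`-power in the smaller one), and `∏_{i < k, i ≠ i_p} |i - i_p| = i_p ! (k - 1 - i_p)!` divides
`(k - 1)!`. So `∏_{i < k, i ∉ I} (a + 2 i)` (odd, all its primes are among these `p`) divides `(k - 1)!`,
hence its odd part, and it is at least `a ^ (k - |I|)`. -/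
def S_Rem : Prop := ∀ a k : ℕ, Odd a → 1 ≤ k → (∀ p : ℕ, p.Prime → p ∣ od a k → p ≤ 2 * k + 1) →
  a ^ (k - pc (2 * k + 1)) ≤ op (k - 1).factorial

/-- `v_p (od a k) ≤ ∑_{1 ≤ e ≤ E} (k / p ^ e + 1)` with `E = log_p (a + 2 k - 2)` (at most
`k / p ^ e + 1` of the `k` numbers are divisible by `p ^ e`, `p` odd), and `v_p (k !) ≥ ∑_{1 ≤ e ≤ E} k / p ^ e`
(Legendre). -/
def S_Exp : Prop := ∀ p a k : ℕ, p.Prime → p ≠ 2 → Odd a → 1 ≤ k →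
  p ^ ((od a k).factorization p - (k.factorial).factorization p) ≤ a + 2 * k - 2

/-- If `p < a`, `a + 2 k - 2 < 3 p`, `p` odd, then no `a + 2 i = p q` (`q` odd, `q ≠ 1`, so `q ≥ 3`). -/
def S_NoMul : Prop := ∀ p a k : ℕ, p.Prime → p ≠ 2 → Odd a → 1 ≤ k → p < a → a + 2 * k - 2 < 3 * p →
  ¬ p ∣ od a k

/-- Uses `S_Exp`. `od a k = ∏_{p ∣ od a k} p ^ v_p`, `v_p ≤ v_p (k !) + d_p` with `p ^ d_p ≤ a + 2 k - 2 =: n`,
all `p` odd; `∏ p ^ v_p(k!) ≤ op (k !)`; for `p ≤ √n`, `p ^ d_p ≤ n`; for `p > √n`, `d_p ≤ 1`, and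
`∏_{p ≤ M} p ≤ 4 ^ M` (`primorial_le_four_pow`). -/
def S_ProdB : Prop := ∀ a k M : ℕ, Odd a → 1 ≤ k → 2 ≤ a + 2 * k - 2 →
  (∀ p : ℕ, p.Prime → p ∣ od a k → p ≤ M) →
  od a k ≤ op k.factorial * (a + 2 * k - 2) ^ pc (Nat.sqrt (a + 2 * k - 2)) * 4 ^ M

/-- `v_2 (k !) = k - s_2(k)`, `2 ^ s_2(k) ≤ 2 k`, and `k ! ≤ k ^ (k + 1) / e ^ (k - 1)` (induction, from
`e ≤ (1 + 1 / k) ^ (k + 1)`). -/
def S_OddFac : Prop := ∀ k : ℕ, 1 ≤ k →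
  (op k.factorial : ℝ) * (2 * Real.exp 1) ^ k ≤ 2 * Real.exp 1 * (k : ℝ) ^ 2 * (k : ℝ) ^ k

/-- primes `> 3` are `± 1` mod `6` -/
def S_PcThird : Prop := ∀ N : ℕ, 3 * pc N ≤ N + 3

/-- from `Nat.primeCounting'_add_le` with `a = 210`, `k = 211` (`π'(211) = 46`, `φ(210) = 48`) -/
def S_PcHalf : Prop := ∀ k : ℕ, 1200 ≤ k → 2 * pc (2 * k + 1) ≤ k

/-- Uses `S_OddFac`, `S_PcHalf`: `(a ^ (k - pc)) ^ 2 ≥ a ^ k ≥ (k / 4) ^ (2 k)` and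
`op (k - 1)! ≤ op k ! ≤ (k / (2 e)) ^ k * 2 e k ^ 2`, `(e / 2) ^ k > 2 e k ^ 2`. -/
def S_BigA : Prop := ∀ k a : ℕ, 2000 ≤ k → k ^ 2 ≤ 16 * a →
  op (k - 1).factorial < a ^ (k - pc (2 * k + 1))

/-- Uses `S_OddFac`, `S_PcThird`. With `n = a + 2 k - 2 < 6 k`, `t = a / k ∈ [2, 4]`: it is enough that
`(2 e t / 4 ^ ((t + 2) / 3)) ^ k > 2 e k ^ 2 n ^ (√n / 3 + 1)`; the base is at least `1.18`
(it is at least `1.36, 1.34, 1.28, 1.18` on `[2, 5/2], [5/2, 3], [3, 7/2], [7/2, 4]`: use the left end in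
`t` and the right end in `4 ^ ((t + 2) / 3)`). Numerically the logarithm of the quotient is
at least `0.12 k` for `k ≥ 2000`, and `0.18 k` for `k ≥ 5000`. -/
def S_BigB : Prop := ∀ k a : ℕ, 5000 ≤ k → 2 * k + 3 ≤ a → a ≤ 4 * k →
  op k.factorial * (a + 2 * k - 2) ^ pc (Nat.sqrt (a + 2 * k - 2)) * 4 ^ ((a + 2 * k - 2) / 3) < a ^ k

/-- Uses `S_OddFac`, `S_PcThird`. With `n = a + 2 k - 2`, `6 k - 2 ≤ n ≤ 3 a / 2`, `u = √n`: it is enough that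
`(2 e a / (16 k)) ^ k > 4 * 2 e k ^ 2 n ^ (√n / 3 + 1)`, i.e. (`a ≥ 2 n / 3`)
`k log (e u ^ 2 / (12 k)) > log (8 e) + 2 log k + 2 (u / 3 + 1) log u`. The difference is concave in `u`
(`log u` and `- u log u` are concave), so it is enough to check the ends `u = √(6 k - 2)` and
`u = √(k ^ 2 / 16 + 2 k)`. -/
def S_BigC : Prop := ∀ k a : ℕ, 5000 ≤ k → 4 * k < a → 16 * a ≤ k ^ 2 →
  op k.factorial * (a + 2 * k - 2) ^ pc (Nat.sqrt (a + 2 * k - 2)) * 4 ^ (2 * k + 1) < a ^ k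

/-- Finite computation (see `S_Rem`): for `143 ≤ k < 5000`. Use an own upper bound for `pc` that the kernel
can evaluate (for instance by counting the odd `n ≤ N` with `gcd(n, 3·5·7·…·97) = 1`, plus `24`), and blocks
of consecutive `k` if you like. -/
def S_FinA : Prop := ∀ k : ℕ, 143 ≤ k → k < 5000 →
  op (k - 1).factorial < (2 * k + 3) ^ (k - pc (2 * k + 1))

/-- Finite computation, for `4 ≤ k ≤ 142`: `op (k - 1)! < (2 k + 3) ^ (k - pc (2 k + 1))` except for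
`k = 6, 15, 23, 30, 36, 53, 54, 55, 56, 57, 58, 99, 100, 120, 141, 142`, where
`op (k - 1)! < (b + 2) ^ (k - pc (2 k + 1))` with
`b = 15, 33, 50, 63, 79, 110, 129, 121, 141, 126, 123, 209, 206, 247, 293, 290`, and for `2 k + 3 ≤ a ≤ b`
there is a prime in `[a, a + 2 k - 2]`. -/
def S_FinB : Prop := ∀ k a : ℕ, 4 ≤ k → k ≤ 142 → Odd a → 2 * k + 3 ≤ a →
  op (k - 1).factorial < a ^ (k - pc (2 * k + 1)) ∨ ∃ i < k, (a + 2 * i).Prime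

/-- Three consecutive odd numbers `≥ 9` are not all composed of `3, 5, 7`. Proof: at most one of them is
divisible by `3`, at most one by `5`, at most one by `7`, so they would be powers of `3`, `5`, `7` in some
order; `5 ^ b` with `b ≥ 2`, `|7 ^ c - 5 ^ b| ∈ {2, 4}`, but `7 ^ c` mod `25` is `1, 7, 18` or `24`. -/
def S_Three : Prop := ∀ a : ℕ, Odd a → 9 ≤ a → ∃ p : ℕ, p.Prime ∧ 9 ≤ p ∧ ∃ i < 3, p ∣ a + 2 * i

/-- Two consecutive odd numbers `≥ 7`: a prime `≥ 7` divides one of them unless they are `25, 27`. Proof: they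
would be `{3 ^ x, 5 ^ y}`, and `3 ^ x - 5 ^ y = ± 2`, `x ≥ 2`, `y ≥ 2`, has only the solution `27 - 25`
(congruences: for `y ≥ 3`, `3 ^ x = ± 2` mod `125` fixes `x` mod `100`; combine with other moduli, for
instance `101`; similarly `81 ∣ 3 ^ x`). -/
def S_Two : Prop := ∀ a : ℕ, Odd a → 7 ≤ a → a ≠ 25 →
  ∃ p : ℕ, p.Prime ∧ 7 ≤ p ∧ ∃ i < 2, p ∣ a + 2 * i

/-- Schur's theorem on consecutive odd numbers. From `S_Rem`, `S_NoMul`, `S_ProdB`, `S_BigA`, `S_BigB`,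
`S_BigC`, `S_FinA`, `S_FinB`, `S_Three`: if no prime `≥ 2 k + 3` divides `od a k` then all prime
divisors are `≤ 2 k + 1`; for `k = 3` `S_Three`; for `4 ≤ k < 5000` `S_Rem` and `S_FinA`, `S_FinB`
(`(2 k + 3) ^ e ≤ a ^ e`); for `k ≥ 5000` and `16 a ≥ k ^ 2` `S_Rem` and `S_BigA`; else
`a ^ k ≤ od a k` and `S_ProdB` with `M = (a + 2 k - 2) / 3` (`S_NoMul`) if `a ≤ 4 k` (`S_BigB`), and
`M = 2 k + 1` if `a > 4 k` (`S_BigC`). -/
def S_Sch : Prop := ∀ k a : ℕ, 3 ≤ k → Odd a → 2 * k + 3 ≤ a →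
  ∃ p : ℕ, p.Prime ∧ 2 * k + 3 ≤ p ∧ ∃ i < k, p ∣ a + 2 * i

/-! ### 2. Newton polygons -/

/-- `(2 i - 1)!!` -/
def dd (i : ℕ) : ℕ := ∏ t ∈ range i, (2 * t + 1)

/-- the coefficients `binom(m, i) (2 m - 1 + 2 δ)!! / (2 i - 1 + 2 δ)!!` -/
def cf (δ m i : ℕ) : ℕ := m.choose i * ∏ t ∈ Ico (i + δ) (m + δ), (2 * t + 1)

/-- the Hermite polynomials in `y = x ^ 2` -/
noncomputable def PP (δ m : ℕ) : Polynomial ℤ :=
  ∑ i ∈ range (m + 1), Polynomial.C ((-1) ^ (m - i) * (cf δ m i : ℤ)) * Polynomial.X ^ i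

def S_PPm : Prop := ∀ δ m : ℕ, (PP δ m).Monic ∧ (PP δ m).natDegree = m ∧
  ∀ i ≤ m, (PP δ m).coeff i = (-1) ^ (m - i) * (cf δ m i : ℤ)

def S_CfDd : Prop := ∀ δ m i : ℕ, i ≤ m → cf δ m i * dd (i + δ) = m.choose i * dd (m + δ)

/-- `(2 a)! = 2 ^ a a ! dd a` and Legendre `(p - 1) v_p (n !) = n - s_p (n)`: `(p - 1) v = a - s(2 a) + s(a)`. -/
def S_Val : Prop := ∀ p a : ℕ, p.Prime → p ≠ 2 → 1 ≤ a →
  (p - 1) * padicValNat p (dd a) ≤ 2 * a - 1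

/-- Uses `S_Val`. For `δ ≤ 1`, `p ≥ 2 k + 1 + 2 δ`, `i ≥ 1`: `k v_p (dd (i + δ)) < i`. (`δ = 0`:
`2 k v ≤ (p - 1) v ≤ 2 i - 1`. `δ = 1`: trivial if `v = 0`, else `2 k v ≤ (p - 1) v - 2 v ≤ 2 i + 1 - 2`.) -/
def S_ValK : Prop := ∀ p k δ i : ℕ, p.Prime → δ ≤ 1 → 1 ≤ k → 2 * k + 1 + 2 * δ ≤ p → 1 ≤ i →
  k * padicValNat p (dd (i + δ)) < i

/-- Uses `S_PPm`, `S_CfDd`, `S_ValK`. If `‖α‖ ^ k ≤ ‖p‖ = 1 / p` then for `1 ≤ i ≤ m`
`‖c_i α ^ i‖ ^ k ≤ ‖c_i‖ ^ k ‖p‖ ^ i < ‖c_0‖ ^ k` since `k v(c_i) + i > k v(c_0)`: `v(c_i) + v(dd (i + δ)) =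
v(binom(m, i)) + v(dd (m + δ)) ≥ v(dd (m + δ)) = v(c_0)` (`dd δ = 1`). So the term `i = 0` is the strictly
largest one and the sum is not `0` (the norm of `PadicAlgCl p` is nonarchimedean and multiplicative and
extends the `p`-adic norm). -/
def S_Root : Prop := ∀ (p : ℕ) [Fact p.Prime] (δ m k : ℕ) (α : PadicAlgCl p), δ ≤ 1 → 1 ≤ k →
  2 * k + 1 + 2 * δ ≤ p → Polynomial.aeval α (PP δ m) = 0 → (p : ℝ)⁻¹ < ‖α‖ ^ k

/-- Uses `S_Root`, `S_PPm`. Let `f * g = PP δ m`, `g` monic of degree `k`. The coefficients `c_0, …, c_{m-k}` of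
`PP δ m` are divisible by `p` (`∏_{t ∈ Ico (m+δ-k) (m+δ)} (2 t + 1)` divides them), so mod `p` `X ^ (m - k + 1)`
divides `f g`; `f` is monic of degree `m - k`, so `X ∣ g` mod `p`: `p ∣ g(0)`. But `g(0) = ± ∏ α` over the `k`
roots in `PadicAlgCl p`, `‖g(0)‖ ^ k = ∏ ‖α‖ ^ k > ‖p‖ ^ k` by `S_Root`, so `‖g(0)‖ > ‖p‖`: contradiction. -/
def S_NoFac : Prop := ∀ (p δ m k : ℕ) (f g : Polynomial ℤ), p.Prime → δ ≤ 1 → 1 ≤ k → k ≤ m →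
  2 * k + 1 + 2 * δ ≤ p → p ∣ ∏ t ∈ Ico (m + δ - k) (m + δ), (2 * t + 1) → g.Monic → g.natDegree = k →
  f * g = PP δ m → False

/-- Uses `S_Root`, `S_PPm`. A linear factor: `a ∈ ℤ` with `PP 1 m (a) = 0`, `2 m + 1 = 3 ^ r`, `r ≥ 2`. No prime
`p ≥ 5` divides `a` (`S_Root`, `k = 1`), `a` is odd (`c_0` is odd, `PP 1 m (a) = c_0` mod `a`), `9 ∤ a` (otherwise for
`i ≥ 1` `v_3 (c_i a ^ i) ≥ v_3(c_0) - v_3(dd (i + 1)) + 2 i > v_3 (c_0)`, `S_Val`), `a ≥ 0` (all terms have the same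
sign if `a < 0`), and `3 ∣ a` (`3 ∣ c_i` for `i < m`), so `a = 3`. -/
def S_Lin : Prop := ∀ (m r : ℕ) (a : ℤ), 2 ≤ r → 2 * m + 1 = 3 ^ r → (PP 1 m).eval a = 0 → a = 3

/-- `PP 1 13` has no monic factor of degree `2`: reduce mod a small prime `q` such that `PP 1 13` mod `q` has no
factor `X ^ 2 + b X + c` (finite check over `b, c < q`). -/
def S_E27 : Prop := ∀ f g : Polynomial ℤ, g.Monic → g.natDegree = 2 → f * g ≠ PP 1 13

/-- Reversal: `XP ℚ (2 m + δ) (v) = ∑_k (-1) ^ k cf δ m (m - k) (2 v) ^ k`. -/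
def S_Rev : Prop := ∀ δ m : ℕ, δ ≤ 1 → Orch.XP ℚ (2 * m + δ) =
  ∑ k ∈ range (m + 1), Polynomial.C ((-1) ^ k * 2 ^ k * (cf δ m (m - k) : ℚ)) * Polynomial.X ^ k

/-- Uses `S_Rev`, `S_PPm`. The polynomial in `S_Rev` is the reverse of `PP δ m` (mapped to `ℚ`), composed with
`2 X`; `PP δ m` is monic (Gauss) and its value at `0` is not `0`. -/
def S_IrrRev : Prop := ∀ δ m : ℕ, δ ≤ 1 → 1 ≤ m → Irreducible (PP δ m) →
  Irreducible (Orch.XP ℚ (2 * m + δ))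

/-- value at `3` and at `1 / 6` -/
def S_At3 : Prop := ∀ m : ℕ, (PP 1 m).eval 3 = 0 → Orch.xe (1 / 6 : ℚ) (2 * m + 1) = 0

/-- Uses `S_Sch`, `S_Two`, `S_NoFac`, `S_PPm`, `S_Lin`, `S_At3`, `S_E27` and
`hX3 : ∀ j, j ≠ 3 → Orch.xe (1 / 6 : ℚ) j ≠ 0`. By `Polynomial.Monic.irreducible_iff_natDegree'` it is enough to
exclude `f * g = PP δ m`, both monic, `1 ≤ k := natDegree g ≤ m / 2`. With `a = 2 (m + δ - k) + 1 ≥ 2 k + 1 + 2 δ` a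
prime `p ≥ 2 k + 1 + 2 δ` divides `∏_{t ∈ Ico (m + δ - k) (m + δ)} (2 t + 1) = ∏_{i < k} (a + 2 i)`: `k ≥ 3`:
`S_Sch` if `a ≥ 2 k + 3`, Bertrand (`Nat.exists_prime_lt_and_le_two_mul`, a prime in `(2 k, 4 k]`) if
`a = 2 k + 1` (`δ = 0`, `m = 2 k`); `k = 2`: `S_Two` if `a ≥ 7`, `a ≠ 25`, and `5 ∣ 5`, `5 ∣ 25` for `δ = 0`, `a = 5`
or `25`; `δ = 1`, `a = 25` is `m = 13`: `S_E27`; `k = 1`: `a = 2 m - 1 + 2 δ ≥ 3 + 2 δ`; for `δ = 0` every prime divisor of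
`a` will do, for `δ = 1` a prime divisor `≥ 5` unless `2 m + 1 = 3 ^ r`: then `S_Lin`, `S_At3`, `hX3`. -/
def S_Irr : Prop := ∀ δ m : ℕ, δ ≤ 1 → 1 ≤ m → Irreducible (PP δ m)

/-- From `S_Irr`, `S_IrrRev`. -/
def S_Main : Prop := ∀ j : ℕ, 2 ≤ j → Irreducible (Orch.XP ℚ j)

end SchH
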